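import Pool.Agent.Helper5.N2.Stmts

set_option autoImplicit false

namespace N2

/-- first derivative of the identity Z -/
theorem Z1 (h1 : ST_G1) (h2 : ST_G2) (h4 : ST_G4) (hPr : ST_P) (h3 : ST_G3)
    {R : Type} [CommRing R] [DR R] {m : ℕ} (N : Nt R m) (hP : N.P5) :
    -(2 * N.K * N.al * N.BB) + N.y * (dot N.b' N.be - 2 * N.K * N.K * N.F * N.F * N.al)
    = 3 * N.K * (N.ph * N.F * N.V + N.F * (N.K * N.F * N.y * N.al - N.K * N.q * N.al' + N.q' * N.G * N.k1))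
      + 3 * N.K * ((N.q * N.ph - N.k1) * N.q' + N.q * (N.K * N.F * N.al'))
      - 2 * N.K * N.K * (2 * N.F * N.F * N.ph * N.g * N.y
          + N.F * N.F * (2 * N.al * N.y - 2 * N.K * N.g * N.al))
      + 2 * N.K * (N.ph * N.F * N.al' * N.ph + N.F * D N.al' * N.ph + N.F * N.al' * D N.ph) := by
  obtain ⟨hKr, hG, hg, hy, hGF, hDK, hD'K, hB, hA, hBB, hAB, hAA, hpA, hpB, hDF, hD'F, hDG, hD'G⟩ := h1 R m N
  obtain ⟨hbA, hbB, htA, htB, hbA', hbB', htA', htB', hq, hq', hDg, hD'g, hal', hU', hV, hk1', hS', hBBr,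
    hbeA, hbeB, hbeA', hbeB'⟩ := h2 R m N
  obtain ⟨hDA, hD'B, hDps, hD'ps, hPh, hPh', htb', ht'b, hD'q, hDq', hD'ta, hDta'⟩ := h3 R m N
  obtain ⟨hyph, hDq, hDta, hDal, hZ, hpsbe, h7, hDBB, hDV, hDk1, hD'k1⟩ := hPr R m N hP
  have hDy : D N.y = -(2 * N.K * N.al) := by
    unfold Nt.y; rw [D_sub, D_one, D_mul, hDK, hDg]; ring
  have h := congrArg D hZ
  simp only [D_add, D_sub, D_mul, D_ofNat, hDK, hDF, hDy, hDBB, hDV, hDq, hDq', hDg] at h
  linear_combination h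

theorem st_D2 (h1 : ST_G1) (h2 : ST_G2) (h3 : ST_G3) (h4 : ST_G4) (hPr : ST_P) : ST_D2 := by
  intro R _ _ m N χ hP ha hk hyn
  have hz1 := Z1 h1 h2 h4 hPr h3 N hP
  obtain ⟨hKr, hG, hg, hy, hGF, hDK, hD'K, hB, hA, hBB, hAB, hAA, hpA, hpB, hDF, hD'F, hDG, hD'G⟩ := h1 R m N
  obtain ⟨hbA, hbB, htA, htB, hbA', hbB', htA', htB', hq, hq', hDg, hD'g, hal', hU', hV, hk1', hS', hBBr,
    hbeA, hbeB, hbeA', hbeB'⟩ := h2 R m N
  obtain ⟨hDA, hD'B, hDps, hD'ps, hPh, hPh', htb', ht'b, hD'q, hDq', hD'ta, hDta'⟩ := h3 R m N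
  obtain ⟨hD'al, hDal', hD'ph, hD'b, hDb', hPA, hDDg, hPP⟩ := h4 R m N
  obtain ⟨hyph, hDq, hDta, hDal, hZ, hpsbe, h7, hDBB, hDV, hDk1, hD'k1⟩ := hPr R m N hP
  have hDy : D N.y = -(2 * N.K * N.al) := by
    unfold Nt.y; rw [D_sub, D_one, D_mul, hDK, hDg]; ring
  have hDE : D (dot N.b' N.be) = -(N.K * N.F) * dot N.ta' N.be + dot N.b' (Dv N.be) := by
    rw [D_dot, hDb']
    simp only [add_dot, sub_dot, smul_dot, dot_comm N.A N.be, dot_comm N.B N.be, hbeA, hbeB]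
    ring
  have ha' : χ N.al' = 0 := by
    have : χ N.al' = (starRingEnd ℂ) (χ N.al) := χ.hcj _
    rw [this, ha, map_zero]
  have hph : χ N.ph = 0 := by
    have h := congrArg χ.h hyph
    simp only [map_mul, ha, mul_zero] at h
    exact (mul_eq_zero.mp h).resolve_left hyn
  have hGF' : χ N.G * χ N.F = 1 := by rw [← map_mul, hGF, map_one]
  have h := congrArg D hz1
  simp only [D_add, D_sub, D_mul, D_neg, D_ofNat, hDK, hDF, hDG, hDy, hDBB, hDE, hDV, hDq, hDq', hDg,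
    hDk1, hDal'] at h
  have h' := congrArg χ.h h
  simp only [map_add, map_sub, map_mul, map_neg, map_ofNat, map_zero, map_one, ha, ha', hk, hph] at h'
  linear_combination h' + (3 * χ N.K * χ N.q' * (χ N.y * χ N.S - χ N.K * χ N.q * χ N.q + χ (dot N.ta N.be))
    + 4 * χ N.K * χ N.q * χ N.q' * χ (D N.ph)) * hGF'

theorem st_D2b (h1 : ST_G1) (h2 : ST_G2) (h3 : ST_G3) (h4 : ST_G4) (hPr : ST_P) : ST_D2b := by
  intro R _ _ m N χ hP ha hyn
  obtain ⟨hKr, hG, hg, hy, hGF, hDK, hD'K, hB, hA, hBB, hAB, hAA, hpA, hpB, hDF, hD'F, hDG, hD'G⟩ := h1 R m N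
  obtain ⟨hbA, hbB, htA, htB, hbA', hbB', htA', htB', hq, hq', hDg, hD'g, hal', hU', hV, hk1', hS', hBBr,
    hbeA, hbeB, hbeA', hbeB'⟩ := h2 R m N
  obtain ⟨hDA, hD'B, hDps, hD'ps, hPh, hPh', htb', ht'b, hD'q, hDq', hD'ta, hDta'⟩ := h3 R m N
  obtain ⟨hyph, hDq, hDta, hDal, hZ, hpsbe, h7, hDBB, hDV, hDk1, hD'k1⟩ := hPr R m N hP
  have hDy : D N.y = -(2 * N.K * N.al) := by
    unfold Nt.y; rw [D_sub, D_one, D_mul, hDK, hDg]; ring
  have hph : χ N.ph = 0 := by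
    have h := congrArg χ.h hyph
    simp only [map_mul, ha, mul_zero] at h
    exact (mul_eq_zero.mp h).resolve_left hyn
  constructor
  · have h := congrArg D hpsbe
    have e1 : dot (Dv N.ps) N.be = dot N.ta N.be := by
      rw [hDps]
      simp only [add_dot, sub_dot, smul_dot, dot_comm N.A N.be, dot_comm N.B N.be, hbeA, hbeB]
      ring
    rw [D_dot, e1] at h
    simp only [D_sub, D_mul, D_ofNat, hDk1] at h
    have h' := congrArg χ.h h
    simp only [map_add, map_sub, map_mul, map_ofNat, map_zero, hph] at h'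
    linear_combination h'
  · have h := congrArg D hyph
    simp only [D_mul, D_ofNat, hDK] at h
    have h' := congrArg χ.h h
    simp only [map_add, map_mul, map_ofNat, map_zero, hph] at h'
    linear_combination h'

theorem st_DD (h1 : ST_G1) (h2 : ST_G2) (h3 : ST_G3) (h4 : ST_G4) (hPr : ST_P) : ST_DD := by
  intro R _ _ m N χ hP ha hyn
  have hz1 := Z1 h1 h2 h4 hPr h3 N hP
  obtain ⟨hKr, hG, hg, hy, hGF, hDK, hD'K, hB, hA, hBB, hAB, hAA, hpA, hpB, hDF, hD'F, hDG, hD'G⟩ := h1 R m N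
  obtain ⟨hbA, hbB, htA, htB, hbA', hbB', htA', htB', hq, hq', hDg, hD'g, hal', hU', hV, hk1', hS', hBBr,
    hbeA, hbeB, hbeA', hbeB'⟩ := h2 R m N
  obtain ⟨hDA, hD'B, hDps, hD'ps, hPh, hPh', htb', ht'b, hD'q, hDq', hD'ta, hDta'⟩ := h3 R m N
  obtain ⟨hD'al, hDal', hD'ph, hD'b, hDb', hPA, hDDg, hPP⟩ := h4 R m N
  obtain ⟨hyph, hDq, hDta, hDal, hZ, hpsbe, h7, hDBB, hDV, hDk1, hD'k1⟩ := hPr R m N hP
  have hDy : D N.y = -(2 * N.K * N.al) := by
    unfold Nt.y; rw [D_sub, D_one, D_mul, hDK, hDg]; ring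
  have hD'y : D' N.y = -(2 * N.K * N.al') := by
    unfold Nt.y; rw [D'_sub, D'_one, D'_mul, hD'K, hD'g]; ring
  have etb' : dot N.b' N.ta = 2 * N.K * N.F * N.al' := by rw [dot_comm]; exact htb'
  have ebb' : dot N.b' N.b = N.BB := dot_comm _ _
  have ebp' : dot N.b' N.ps = N.q' := by rw [hq']; exact dot_comm _ _
  have eb'b' : dot N.b' N.b' = N.S' := hS'.symm
  -- derivative of E = b'.be
  have hD'b' : Dv' N.b' = N.be' - (N.S' * N.G) • N.A + (N.K * N.q') • N.B := by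
    have e0 : N.be' = Dv' N.b' + (N.S' * N.G) • N.A - (N.K * N.q') • N.B := by
      have hcB : cjv N.B = N.A := cjv_cjv _
      unfold Nt.be' Nt.be
      rw [cjv_sub, cjv_add, cjv_smul, cjv_smul, ← Dv'_cjv, hcB]
      simp only [map_mul, hG, hKr]
      rfl
    rw [e0]; module
  have hDD'b : Dv' (Dv N.b) = Dv ((-(N.K * N.F)) • N.ta - (N.BB * N.G) • N.A + (N.K * N.q) • N.B) := by
    rw [← Dv_comm, hD'b]
  have hb'D'be : dot N.b' (Dv' N.be) = -(N.K * N.ph * N.F * (2 * N.K * N.F * N.al'))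
      - N.K * N.F * (N.y * N.BB - N.K * N.q * N.q') - N.BB * N.G * N.BB - N.K * N.q * N.K * N.F * N.q'
      + N.S * N.G * N.S' + N.K * N.q * N.K * N.F * N.q' := by
    have e0 : Dv' N.be = Dv ((-(N.K * N.F)) • N.ta - (N.BB * N.G) • N.A + (N.K * N.q) • N.B)
        + (D' (N.S * N.G) • N.B + (N.S * N.G) • Dv' N.B) - (D' (N.K * N.q) • N.A + (N.K * N.q) • Dv' N.A) := by
      rw [← hDD'b]
      show Dv' (Dv N.b + (N.S * N.G) • N.B - (N.K * N.q) • N.A) = _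
      rw [Dv'_sub, Dv'_add, Dv'_smul, Dv'_smul]
    rw [e0, Dv_add, Dv_sub, Dv_smul, Dv_smul, Dv_smul, hD'B, hA, hDA, hB, hDta]
    simp only [dot_add, dot_sub, dot_smul, etb', ebb', ebp', eb'b', hbA', hbB', D_neg, D_mul, hDK, hDF]
    ring
  have hD'E : D' (dot N.b' N.be) = dot N.be N.be' + dot N.b' (Dv' N.be) := by
    rw [D'_dot, hD'b']
    simp only [add_dot, sub_dot, smul_dot, dot_comm N.A N.be, dot_comm N.B N.be, hbeA, hbeB,
      dot_comm N.be' N.be]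
    ring
  -- values
  have ha' : χ N.al' = 0 := by
    have : χ N.al' = (starRingEnd ℂ) (χ N.al) := χ.hcj _
    rw [this, ha, map_zero]
  have hph : χ N.ph = 0 := by
    have h := congrArg χ.h hyph
    simp only [map_mul, ha, mul_zero] at h
    exact (mul_eq_zero.mp h).resolve_left hyn
  have hph' : χ N.ph' = 0 := by
    have : χ N.ph' = (starRingEnd ℂ) (χ N.ph) := χ.hcj _
    rw [this, hph, map_zero]
  have hGF' : χ N.G * χ N.F = 1 := by rw [← map_mul, hGF, map_one]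
  have hD'q' : D' N.q' = N.q' * N.ph' - N.k1' := by
    have : D' N.q' = cj (D N.q) := by unfold Nt.q'; rw [D'_cj]
    rw [this, hDq, map_sub, map_mul]; rfl
  have hD'al' : χ (D' N.al') = (starRingEnd ℂ) (χ (D N.al)) := by
    have : D' N.al' = cj (D N.al) := by unfold Nt.al'; rw [D'_cj]
    rw [this]; exact χ.hcj _
  have h := congrArg D' hz1
  rw [D'_add, D'_mul N.y, D'_sub (dot N.b' N.be), hD'E, hb'D'be] at h
  simp only [D'_add, D'_sub, D'_mul, D'_neg, D'_ofNat, hD'K, hD'F, hD'G, hD'y, hD'q, hD'q', hD'g,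
    hD'k1] at h
  have h' := congrArg χ.h h
  simp only [map_add, map_sub, map_mul, map_neg, map_ofNat, map_zero, map_one, ha, ha', hph, hph', hD'al'] at h'
  have hv1 : χ (D' N.ph) = χ N.BB * χ N.G - χ N.K * χ N.K * χ N.F * χ N.g := by
    have := congrArg χ.h hD'ph
    simpa only [map_add, map_sub, map_mul] using this
  have hv2 : χ (D N.al) = χ N.U + (1 - 2 * χ N.K * χ N.g) * χ N.q := by
    have := congrArg χ.h hDal
    simpa only [map_add, map_sub, map_mul, map_one, map_ofNat] using this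
  have hv3 : χ (D N.al') = χ (D' N.al) := by rw [hDal', hD'al]
  rw [hv3] at h'
  have hyv : χ N.y = 1 - χ N.K * χ N.g := by
    have : N.y = 1 - N.K * N.g := rfl
    rw [this, map_sub, map_one, map_mul]
  linear_combination h' + (3 * χ N.K * χ N.q * χ N.q') * hv1 - (3 * χ N.K * χ N.k1 * χ N.k1') * hGF'
    + (3 * χ N.K ^ 2 * χ N.F * χ N.q * χ N.q') * hyv - (3 * χ N.K ^ 2 * χ N.F * χ N.q') * hv2

end N2
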