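import Pool.Agent.Helper5.N2.Stmts

set_option autoImplicit false

namespace N2

theorem st_G1 : ST_G1 := by
  intro R _ _ m N
  have hKr : cj N.K = N.K := cj_real N.k
  have hDK : D N.K = 0 := D_Cst _
  have hD'K : D' N.K = 0 := D'_Cst _
  have hGF : N.G * N.F = 1 := by rw [mul_comm]; exact N.hFG
  have hG : cj N.G = N.G := by
    have h1 : N.F * cj N.G = 1 := by
      have := congrArg cj N.hFG
      rwa [map_mul, map_one, N.hFr] at this
    calc cj N.G = (N.G * N.F) * cj N.G := by rw [hGF, one_mul]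
      _ = N.G * (N.F * cj N.G) := by ring
      _ = N.G := by rw [h1, mul_one]
  have hg : cj N.g = N.g := by
    unfold Nt.g; rw [cj_dot, N.hpr]
  have hy : cj N.y = N.y := by
    unfold Nt.y; rw [map_sub, map_mul, map_one, hKr, hg]
  have hA : Dv' N.A = (-(N.K * N.F)) • N.ps := N.hA
  have hB : Dv N.B = (-(N.K * N.F)) • N.ps := by
    unfold Nt.B
    rw [Dv_cjv, hA, cjv_smul, N.hpr, map_neg, map_mul, hKr, N.hFr]
  have hBB : dot N.B N.B = 0 := by
    have := congrArg cj N.hAA
    rwa [cj_dot, map_zero] at this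
  have hAB : dot N.A N.B = N.F := N.hAB
  have hpA : dot N.ps N.A = 0 := by
    have h := congrArg D' N.hAA
    rw [D'_dot, D'_zero, hA, smul_dot, dot_smul, dot_comm N.A N.ps] at h
    have h2 : (Cst (2 * (N.k : ℂ)) : R) * dot N.ps N.A = Cst (2 * (N.k : ℂ)) * 0 := by
      have h3 : (Cst (2 * (N.k : ℂ)) : R) = 2 * N.K := by
        rw [map_mul]; congr 1; exact map_ofNat _ 2
      rw [h3]
      linear_combination (-N.G) * h + (-(2 * N.K * dot N.ps N.A)) * hGF
    refine Cst_mul_cancel ?_ h2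
    have := N.hk
    simpa using this
  have hpB : dot N.ps N.B = 0 := by
    have := congrArg cj hpA
    rw [cj_dot, map_zero, N.hpr] at this
    exact this
  have hDF : D N.F = N.ph * N.F := by
    unfold Nt.ph; rw [mul_assoc, hGF, mul_one]
  have hD'F : D' N.F = N.ph' * N.F := by
    have h1 : D' N.F = cj (D N.F) := by rw [← D'_cj, N.hFr]
    rw [h1, hDF, map_mul, N.hFr]; rfl
  have hDG : D N.G = -(N.ph * N.G) := by
    have h := congrArg D hGF
    rw [D_mul, D_one, hDF] at h
    linear_combination N.G * h + (-(D N.G + N.ph * N.G)) * hGF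
  have hD'G : D' N.G = -(N.ph' * N.G) := by
    have h := congrArg D' hGF
    rw [D'_mul, D'_one, hD'F] at h
    linear_combination N.G * h + (-(D' N.G + N.ph' * N.G)) * hGF
  exact ⟨hKr, hG, hg, hy, hGF, hDK, hD'K, hB, hA, hBB, hAB, N.hAA, hpA, hpB, hDF, hD'F, hDG, hD'G⟩

end N2
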