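import Pool.Agent.Helper5.N2.Stmts

set_option autoImplicit false

namespace N2

theorem st_G2 (h1 : ST_G1) : ST_G2 := by
  intro R _ _ m N
  obtain ⟨hKr, hG, hg, hy, hGF, hDK, hD'K, hB, hA, hBB, hAB, hAA, hpA, hpB, hDF, hD'F, hDG, hD'G⟩ := h1 R m N
  have hBA : dot N.B N.A = N.F := by rw [dot_comm]; exact hAB
  have hAp : dot N.A N.ps = 0 := by rw [dot_comm]; exact hpA
  have hBp : dot N.B N.ps = 0 := by rw [dot_comm]; exact hpB
  have cB : cjv N.B = N.A := cjv_cjv _
  have cA : cjv N.A = N.B := rfl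
  have hDAA : dot (Dv N.A) N.A = 0 := by
    have h := congrArg D hAA
    rw [D_dot, D_zero, dot_comm N.A (Dv N.A)] at h
    have h2 : (Cst 2 : R) * dot (Dv N.A) N.A = Cst 2 * 0 := by
      rw [map_ofNat]; linear_combination h
    exact Cst_mul_cancel two_ne_zero h2
  have hDAB : dot (Dv N.A) N.B = N.ph * N.F := by
    have h := congrArg D hAB
    rw [D_dot, hB, dot_smul, hAp, hDF] at h
    linear_combination h
  have hDpA : dot (Dv N.ps) N.A = -N.q := by
    have h := congrArg D hpA
    rw [D_dot, D_zero] at h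
    unfold Nt.q
    linear_combination h
  have hDpB : dot (Dv N.ps) N.B = N.K * N.F * N.g := by
    have h := congrArg D hpB
    rw [D_dot, D_zero, hB, dot_smul] at h
    unfold Nt.g
    linear_combination h
  have hbA : dot N.b N.A = 0 := by
    unfold Nt.b; rw [sub_dot, smul_dot, hAA, hDAA]; ring
  have hbB : dot N.b N.B = 0 := by
    unfold Nt.b; rw [sub_dot, smul_dot, hAB, hDAB]; ring
  have htA : dot N.ta N.A = 0 := by
    unfold Nt.ta; rw [add_dot, sub_dot, smul_dot, smul_dot, hAA, hBA, hDpA]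
    linear_combination N.q * hGF
  have htB : dot N.ta N.B = 0 := by
    unfold Nt.ta; rw [add_dot, sub_dot, smul_dot, smul_dot, hBB, hAB, hDpB]
    ring
  have hbA' : dot N.b' N.A = 0 := by
    have := congrArg cj hbB
    rw [cj_dot, map_zero, cB] at this; exact this
  have hbB' : dot N.b' N.B = 0 := by
    have := congrArg cj hbA
    rw [cj_dot, map_zero] at this; exact this
  have htA' : dot N.ta' N.A = 0 := by
    have := congrArg cj htB
    rw [cj_dot, map_zero, cB] at this; exact this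
  have htB' : dot N.ta' N.B = 0 := by
    have := congrArg cj htA
    rw [cj_dot, map_zero] at this; exact this
  have hq : N.q = dot N.ps N.b := by
    have : dot N.ps N.b = dot N.ps (Dv N.A) - N.ph * dot N.ps N.A := by
      unfold Nt.b; rw [dot_sub, dot_smul]
    rw [this, hpA]; unfold Nt.q; ring
  have hq' : N.q' = dot N.ps N.b' := by
    unfold Nt.q'; rw [hq, cj_dot, N.hpr]; rfl
  have hpDp : dot N.ps (Dv N.ps) = N.al := by
    have : N.al = dot N.ps (Dv N.ps) - (N.K * N.g) * dot N.ps N.A + (N.q * N.G) * dot N.ps N.B := by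
      unfold Nt.al Nt.ta; rw [dot_add, dot_sub, dot_smul, dot_smul]
    rw [this, hpA, hpB]; ring
  have hDg : D N.g = 2 * N.al := by
    have : D N.g = dot (Dv N.ps) N.ps + dot N.ps (Dv N.ps) := by unfold Nt.g; rw [D_dot]
    rw [this, dot_comm (Dv N.ps) N.ps, hpDp]; ring
  have hD'g : D' N.g = 2 * N.al' := by
    have h2 : D' N.g = cj (D N.g) := by rw [← D'_cj, hg]
    rw [h2, hDg, map_mul, map_ofNat]; rfl
  have hal' : N.al' = dot N.ps N.ta' := by
    unfold Nt.al' Nt.al; rw [cj_dot, N.hpr]; rfl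
  have hU' : N.U' = dot N.ta' N.ta' := by
    unfold Nt.U' Nt.U; rw [cj_dot]; rfl
  have hV : cj N.V = N.V := by
    unfold Nt.V Nt.ta'; rw [cj_dot, cjv_cjv, dot_comm]
  have hk1' : N.k1' = dot N.ta' N.b' := by
    unfold Nt.k1' Nt.k1; rw [cj_dot]; rfl
  have hS' : N.S' = dot N.b' N.b' := by
    unfold Nt.S' Nt.S; rw [cj_dot]; rfl
  have hBBr : cj N.BB = N.BB := by
    unfold Nt.BB Nt.b'; rw [cj_dot, cjv_cjv, dot_comm]
  have hDA : Dv N.A = N.ph • N.A + N.b := by unfold Nt.b; simp
  have hbeA : dot N.be N.A = 0 := by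
    have h := congrArg D hbA
    rw [D_dot, D_zero, hDA, dot_add, dot_smul, hbA] at h
    have h3 : dot N.b N.b = N.S := rfl
    rw [h3] at h
    unfold Nt.be; rw [sub_dot, add_dot, smul_dot, smul_dot, hAA, hBA]
    linear_combination h + N.S * hGF
  have hbeB : dot N.be N.B = 0 := by
    have h := congrArg D hbB
    rw [D_dot, D_zero, hB, dot_smul, dot_comm N.b N.ps, ← hq] at h
    unfold Nt.be; rw [sub_dot, add_dot, smul_dot, smul_dot, hBB, hAB]
    linear_combination h
  have hbeA' : dot N.be' N.A = 0 := by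
    have := congrArg cj hbeB
    rw [cj_dot, map_zero, cB] at this; exact this
  have hbeB' : dot N.be' N.B = 0 := by
    have := congrArg cj hbeA
    rw [cj_dot, map_zero] at this; exact this
  exact ⟨hbA, hbB, htA, htB, hbA', hbB', htA', htB', hq, hq', hDg, hD'g, hal', hU', hV, hk1', hS', hBBr,
    hbeA, hbeB, hbeA', hbeB'⟩

end N2
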