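import Pool.Agent.Helper5.N2.Stmts

set_option autoImplicit false

namespace N2

theorem st_G3 (h1 : ST_G1) (h2 : ST_G2) : ST_G3 := by
  intro R _ _ m N
  obtain ⟨hKr, hG, hg, hy, hGF, hDK, hD'K, hB, hA, hBB, hAB, hAA, hpA, hpB, hDF, hD'F, hDG, hD'G⟩ := h1 R m N
  obtain ⟨hbA, hbB, htA, htB, hbA', hbB', htA', htB', hq, hq', hDg, hD'g, hal', hU', hV, hk1', hS', hBBr,
    hbeA, hbeB, hbeA', hbeB'⟩ := h2 R m N
  have hDA : Dv N.A = N.ph • N.A + N.b := by unfold Nt.b; simp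
  have hD'B : Dv' N.B = N.ph' • N.B + N.b' := by
    unfold Nt.B; rw [Dv'_cjv, hDA, cjv_add, cjv_smul]; rfl
  have hDps : Dv N.ps = N.ta + (N.K * N.g) • N.A - (N.q * N.G) • N.B := by
    unfold Nt.ta; abel
  have hcB : cjv N.B = N.A := cjv_cjv _
  have hD'ps : Dv' N.ps = N.ta' + (N.K * N.g) • N.B - (N.q' * N.G) • N.A := by
    have : Dv' N.ps = cjv (Dv N.ps) := by rw [← Dv'_cjv, N.hpr]
    rw [this, hDps, cjv_sub, cjv_add, cjv_smul, cjv_smul, map_mul, map_mul, hKr, hg, hG, hcB]; rfl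
  have hPh : N.Ph = N.y • N.A + (N.q * N.G) • N.B - N.ta := by
    unfold Nt.Ph Nt.y; rw [hDps]; module
  have hPh' : N.Ph' = N.y • N.B + (N.q' * N.G) • N.A - N.ta' := by
    unfold Nt.Ph'; rw [hPh, cjv_sub, cjv_add, cjv_smul, cjv_smul, map_mul, hy, hG, hcB]; rfl
  have hD'y : D' N.y = -(2 * N.K * N.al') := by
    unfold Nt.y; rw [D'_sub, D'_one, D'_mul, hD'K, hD'g]; ring
  have hta : N.ta = N.y • N.A + (N.q * N.G) • N.B - N.Ph := by rw [hPh]; module
  have hD'Ph : Dv' N.Ph = 0 := N.hPhi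
  have hD'ta0 : Dv' N.ta = D' N.y • N.A + N.y • Dv' N.A + (D' (N.q * N.G) • N.B + (N.q * N.G) • Dv' N.B) := by
    rw [hta, Dv'_sub, Dv'_add, Dv'_smul, Dv'_smul, hD'Ph, sub_zero]
  have hBA : dot N.B N.A = N.F := by rw [dot_comm]; exact hAB
  -- dot with B
  have e1 : dot (Dv' N.ta) N.B = -dot N.ta N.b' := by
    have h := congrArg D' htB
    rw [D'_dot, D'_zero, hD'B, dot_add, dot_smul, htB] at h
    linear_combination h
  have e2 : dot (Dv' N.ta) N.B = D' N.y * N.F := by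
    rw [hD'ta0, hA, hD'B]
    simp only [add_dot, smul_dot, hAB, hpB, hBB, hbB']
    ring
  have htb' : dot N.ta N.b' = 2 * N.K * N.F * N.al' := by
    rw [hD'y] at e2
    linear_combination e1 - e2
  -- dot with A
  have e3 : dot (Dv' N.ta) N.A = N.K * N.F * N.al := by
    have h := congrArg D' htA
    rw [D'_dot, D'_zero, hA, dot_smul, dot_comm N.ta N.ps] at h
    have h4 : dot N.ps N.ta = N.al := rfl
    rw [h4] at h
    linear_combination h
  have e4 : dot (Dv' N.ta) N.A = D' (N.q * N.G) * N.F + N.q * N.G * N.ph' * N.F := by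
    rw [hD'ta0, hA, hD'B]
    simp only [add_dot, smul_dot, hAA, hpA, hBA, hbA']
    ring
  have hD'q : D' N.q = N.K * N.F * N.al := by
    rw [D'_mul, hD'G] at e4
    linear_combination e3 - e4 - (D' N.q) * hGF
  have hDq' : D N.q' = N.K * N.F * N.al' := by
    unfold Nt.q'; rw [D_cj, hD'q, map_mul, map_mul, hKr, N.hFr]; rfl
  have hD'ta : Dv' N.ta = (-(N.K * N.F * N.y)) • N.ps + (N.q * N.G) • N.b' - (2 * N.K * N.al') • N.A
      + (N.K * N.al) • N.B := by
    rw [hD'ta0, hD'y, hA, hD'B]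
    have h5 : D' (N.q * N.G) = N.K * N.al - N.q * N.G * N.ph' := by
      rw [D'_mul, hD'q, hD'G]; linear_combination (N.K * N.al) * hGF
    rw [h5]; module
  have hDta' : Dv N.ta' = (-(N.K * N.F * N.y)) • N.ps + (N.q' * N.G) • N.b - (2 * N.K * N.al) • N.B
      + (N.K * N.al') • N.A := by
    have hcb' : cjv N.b' = N.b := cjv_cjv _
    have hcal' : cj N.al' = N.al := cj_cj _
    unfold Nt.ta'
    rw [Dv_cjv, hD'ta, cjv_add, cjv_sub, cjv_add, cjv_smul, cjv_smul, cjv_smul, cjv_smul, N.hpr, hcb', hcB]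
    simp only [map_mul, map_neg, map_ofNat, hKr, hG, hy, N.hFr, hcal']
    rfl
  have ht'b : dot N.ta' N.b = 2 * N.K * N.F * N.al := by
    have h := congrArg cj htb'
    have hcb' : cjv N.b' = N.b := cjv_cjv _
    have hcal' : cj N.al' = N.al := cj_cj _
    rw [cj_dot, hcb'] at h
    simp only [map_mul, map_ofNat, hKr, N.hFr, hcal'] at h
    exact h
  exact ⟨hDA, hD'B, hDps, hD'ps, hPh, hPh', htb', ht'b, hD'q, hDq', hD'ta, hDta'⟩

end N2
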