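import Pool.Agent.Helper5.N2.Stmts

set_option autoImplicit false

namespace N2

theorem st_G4 (h1 : ST_G1) (h2 : ST_G2) (h3 : ST_G3) : ST_G4 := by
  intro R _ _ m N
  obtain ⟨hKr, hG, hg, hy, hGF, hDK, hD'K, hB, hA, hBB, hAB, hAA, hpA, hpB, hDF, hD'F, hDG, hD'G⟩ := h1 R m N
  obtain ⟨hbA, hbB, htA, htB, hbA', hbB', htA', htB', hq, hq', hDg, hD'g, hal', hU', hV, hk1', hS', hBBr,
    hbeA, hbeB, hbeA', hbeB'⟩ := h2 R m N
  obtain ⟨hDA, hD'B, hDps, hD'ps, hPh, hPh', htb', ht'b, hD'q, hDq', hD'ta, hDta'⟩ := h3 R m N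
  have hcB : cjv N.B = N.A := cjv_cjv _
  have hBA : dot N.B N.A = N.F := by rw [dot_comm]; exact hAB
  have hD'al : D' N.al = N.V + N.q * N.q' * N.G - N.K * N.F * N.y * N.g := by
    have e1 : D' N.al = dot (Dv' N.ps) N.ta + dot N.ps (Dv' N.ta) := by unfold Nt.al; rw [D'_dot]
    have e2 : dot N.ta' N.ta = N.V := dot_comm _ _
    have e3 : dot N.ps N.ps = N.g := rfl
    rw [e1, hD'ps, hD'ta]
    simp only [sub_dot, add_dot, dot_sub, dot_add, smul_dot, dot_smul, e2, e3, hpA, hpB, ← hq',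
      dot_comm N.B N.ta, dot_comm N.A N.ta, htA, htB]
    ring
  have hDal' : D N.al' = N.V + N.q * N.q' * N.G - N.K * N.F * N.y * N.g := by
    have hcq' : cj N.q' = N.q := cj_cj _
    have hcq : cj N.q = N.q' := rfl
    unfold Nt.al'
    rw [D_cj, hD'al]
    simp only [map_sub, map_add, map_mul, hV, hcq, hcq', hG, hKr, N.hFr, hy, hg]
    ring
  have hD'b0 : Dv' N.b = (-(N.K * N.F)) • N.ta - (N.K * N.K * N.F * N.g + D' N.ph) • N.A
      + (N.K * N.q) • N.B := by
    have h := Dv_comm N.A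
    rw [hA, hDA, Dv_smul, Dv'_add, Dv'_smul, hA, hDps] at h
    have h5 : D (-(N.K * N.F)) = -(N.K * (N.ph * N.F)) := by
      rw [D_neg, D_mul, hDK, hDF]; ring
    rw [h5] at h
    have h6 : Dv' N.b = (-(N.K * (N.ph * N.F))) • N.ps
        + (-(N.K * N.F)) • (N.ta + (N.K * N.g) • N.A - (N.q * N.G) • N.B)
        - (D' N.ph • N.A + N.ph • ((-(N.K * N.F)) • N.ps)) := by
      rw [h]; abel
    rw [h6]
    have h7 : (N.K * N.F) * (N.q * N.G) = N.K * N.q := by linear_combination (N.K * N.q) * hGF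
    funext i
    simp only [Pi.add_apply, Pi.sub_apply, Pi.smul_apply, smul_eq_mul]
    linear_combination (N.B i) * h7
  have hgauss : N.BB = (N.K * N.K * N.F * N.g + D' N.ph) * N.F := by
    have e1 : dot (Dv' N.b) N.B = -N.BB := by
      have h := congrArg D' hbB
      have h8 : dot N.b N.b' = N.BB := rfl
      rw [D'_dot, D'_zero, hD'B, dot_add, dot_smul, hbB, h8] at h
      linear_combination h
    rw [hD'b0] at e1
    simp only [sub_dot, add_dot, smul_dot, htB, hAB, hBB] at e1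
    linear_combination e1
  have hD'ph : D' N.ph = N.BB * N.G - N.K * N.K * N.F * N.g := by
    linear_combination (-N.G) * hgauss + (-(N.K * N.K * N.F * N.g + D' N.ph)) * hGF
  have hD'b : Dv' N.b = (-(N.K * N.F)) • N.ta - (N.BB * N.G) • N.A + (N.K * N.q) • N.B := by
    rw [hD'b0, hD'ph]
    have : N.K * N.K * N.F * N.g + (N.BB * N.G - N.K * N.K * N.F * N.g) = N.BB * N.G := by ring
    rw [this]
  have hDb' : Dv N.b' = (-(N.K * N.F)) • N.ta' - (N.BB * N.G) • N.B + (N.K * N.q') • N.A := by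
    unfold Nt.b'
    rw [Dv_cjv, hD'b, cjv_add, cjv_sub, cjv_smul, cjv_smul, cjv_smul, hcB]
    simp only [map_mul, map_neg, hKr, hG, N.hFr, hBBr]
    rfl
  have hPA : dot N.Ph' N.A = N.y * N.F := by
    rw [hPh']
    simp only [sub_dot, add_dot, smul_dot, hBA, hAA, htA']
    ring
  have hPP : dot N.Ph N.Ph' = N.y * N.y * N.F + N.q * N.q' * N.G + N.V := by
    have e2 : dot N.ta N.ta' = N.V := rfl
    rw [hPh, hPh']
    simp only [sub_dot, add_dot, dot_sub, dot_add, smul_dot, dot_smul, e2, hAA, hBB, hAB, hBA, htA, htB,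
      dot_comm N.A N.ta', dot_comm N.B N.ta', htA', htB']
    linear_combination (N.q * N.q' * N.G) * hGF
  have hDDg : D' (D N.g) = 2 * dot N.Ph N.Ph' - 2 * (N.y * N.F) := by
    rw [hDg, D'_mul, D'_ofNat, hD'al, hPP]
    have : N.y = 1 - N.K * N.g := rfl
    linear_combination (-2 * N.y * N.F) * this
  exact ⟨hD'al, hDal', hD'ph, hD'b, hDb', hPA, hDDg, hPP⟩

end N2
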