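import Pool.Agent.Helper5.N2.P
import Pool.Agent.Helper5.N2.D2
import Pool.Agent.Helper5.N2.G1
import Pool.Agent.Helper5.N2.G2
import Pool.Agent.Helper5.N2.G3
import Pool.Agent.Helper5.N2.G4
import Pool.Agent.Helper73.N2A1
import Pool.Agent.Helper33.N2A2
import Pool.Agent.Helper52.N2.A3
import Pool.Agent.Helper33.N2A4
import Pool.Agent.Helper33.N2A5
import Pool.Agent.Helper11.N2ASM
import Pool.Agent.Helper31.N2ASMb
import Pool.Agent.Helper27.N2B0
import Pool.Agent.Helper59.N2.BJ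
import Pool.Agent.Helper59.N2.CNST
import Pool.Agent.Helper52.N2.CONV
import Pool.Agent.Helper55.N2.CR
import Pool.Agent.Helper17.N2.CR0
import Pool.Agent.Helper46.N2CY
import Pool.Agent.Helper46.N2EXH
import Pool.Agent.Helper27.N2EXH2
import Pool.Agent.Helper84.N2FBD
import Pool.Agent.Helper61.N2GRAD
import Pool.Agent.Helper59.N2.GRAM
import Pool.Agent.Helper46.N2LIO
import Pool.Agent.Helper29.N2MAX
import Pool.Agent.Helper73.N2PER
import Pool.Agent.Helper48.N2.N2PM
import Pool.Agent.Helper48.N2.N2P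
import Pool.Agent.Helper48.N2.N2SL
import Pool.Agent.Helper11.N2THA
import Pool.Agent.Helper27.N2THB
import Pool.Agent.Helper79.N2ULT
import Pool.Agent.Helper11.N2YB
import Pool.Agent.Helper59.N2.ZERO

set_option autoImplicit false

namespace N2

theorem all_G1 : ST_G1 := st_G1
theorem all_G2 : ST_G2 := st_G2 all_G1
theorem all_G3 : ST_G3 := st_G3 all_G1 all_G2
theorem all_G4 : ST_G4 := st_G4 all_G1 all_G2 all_G3
theorem all_P : ST_P := st_P all_G1 all_G2 all_G3 all_G4
theorem all_I : ST_I := st_I all_G1 all_G2 all_G4 all_P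
theorem all_D2 : ST_D2 := st_D2 all_G1 all_G2 all_G3 all_G4 all_P
theorem all_D2b : ST_D2b := st_D2b all_G1 all_G2 all_G3 all_G4 all_P
theorem all_DD : ST_DD := st_DD all_G1 all_G2 all_G3 all_G4 all_P
theorem all_CON : ST_CON := N59.st_CON
theorem all_GRAM : ST_GRAM := N59.st_GRAM
theorem all_LIO : ST_LIO := N246.st_LIO N29.st_MAX
theorem all_GRAD : ST_GRAD := N261.st_GRAD
theorem all_CR : ST_CR := N255.st_CR all_G1 all_G2 all_G3 all_G4 all_P all_D2 all_D2b all_DD all_GRAM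
theorem all_CR0 : ST_CR0 := N17.st_CR0 all_G1 all_G2 all_G3 all_G4 all_P all_DD all_GRAM
theorem all_ZERO : ST_ZERO := N59.st_ZERO all_G1 all_G2 all_G3 all_G4 all_P all_DD all_GRAM
theorem all_ASMb : ST_ASMb := N231.st_ASMb all_G1 all_G2 all_G4 all_I all_CON all_LIO N79.st_ULT all_CR all_CR0
  all_ZERO N248.st_PMIN N248.st_PMAX N248.st_PMIN0 N248.st_PMAX0
theorem all_YB : ST_YB := N211.st_YB all_G4 all_I all_CON
theorem all_FBD : ST_FBD := N284.st_FBD all_G1 all_G2 all_G3 all_G4 all_P all_I all_CON N248.st_SLOPE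
theorem all_BJ : ST_BJ := N59.st_BJ all_G1 all_G2 all_G3 all_G4 all_P all_I all_CON all_GRAD
theorem all_ASM : ST_ASM := N211.st_ASM all_G1 all_G4 all_I all_CON all_LIO all_YB all_FBD all_BJ all_ASMb
theorem all_B0 : ST_B0 := N227.st_B0 all_GRAD
theorem all_EXH2 : ST_EXH2 := N227.st_EXH2 all_G1 all_G3 N246.st_EXH
theorem all_CY : ST_CY := N246.st_CY N29.st_MAX
theorem all_A1 : ST_A1 := N273.st_A1 all_CY all_G1 all_G2 all_G4
theorem all_A6 : ST_A6 := N273.st_A6 all_CY all_G1 all_G2 all_G4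
theorem all_A2 : ST_A2 := N233.st_A2 all_G1
theorem all_A3 : ST_A3 := N252.st_A3 all_CY all_A1 all_A2 all_G1
theorem all_A4 : ST_A4 := N233.st_A4 all_LIO all_G1 all_G2 all_G4
theorem all_A5 : ST_A5 := N233.st_A5 all_CON all_G1 all_G4
theorem all_THB : ST_THB := N227.st_THB N252.st_CONV all_B0 all_ASM N273.st_PER all_EXH2 all_A1 all_A6
theorem all_THA : ST_THA := N211.st_THA N252.st_CONV all_EXH2 all_A3 all_A4 all_A5 all_A6

end N2
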