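import Mathlib

/-!
# Conformal immersions of the plane into Euclidean space and their Laplace-Beltrami operator
-/

set_option autoImplicit false

namespace N2

/-- `f` is a smooth conformal immersion of the plane `ℝ × ℝ` into `ℝ^m` with conformal factor `g`:
its first fundamental form is `g (du² + dv²)` with `g > 0`. -/
def ConfImm (m : ℕ) (f : ℝ × ℝ → EuclideanSpace ℝ (Fin m)) (g : ℝ × ℝ → ℝ) : Prop :=
  ContDiff ℝ ((⊤ : ℕ∞) : WithTop ℕ∞) f ∧
  (∀ p, 0 < g p) ∧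
  (∀ p, inner ℝ (fderiv ℝ f p (1, 0)) (fderiv ℝ f p (1, 0)) = g p) ∧
  (∀ p, inner ℝ (fderiv ℝ f p (0, 1)) (fderiv ℝ f p (0, 1)) = g p) ∧
  (∀ p, inner ℝ (fderiv ℝ f p (1, 0)) (fderiv ℝ f p (0, 1)) = 0)

/-- the flat Laplacian `u_uu + u_vv` of a function on the plane with values in a normed space -/
noncomputable def flatLap {V : Type} [NormedAddCommGroup V] [NormedSpace ℝ V] (u : ℝ × ℝ → V)
    (p : ℝ × ℝ) : V :=
  fderiv ℝ (fun q => fderiv ℝ u q (1, 0)) p (1, 0) + fderiv ℝ (fun q => fderiv ℝ u q (0, 1)) p (0, 1)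

/-- the Laplace-Beltrami operator `(1/g) (u_uu + u_vv)` of the metric `g (du² + dv²)` -/
noncomputable def LB (g : ℝ × ℝ → ℝ) {V : Type} [NormedAddCommGroup V] [NormedSpace ℝ V]
    (u : ℝ × ℝ → V) (p : ℝ × ℝ) : V := (g p)⁻¹ • flatLap u p

end N2
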