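import Mathlib

/-!
# Commutative differential rings with an involution: abstract frame for the computations

`R` is a commutative ring with constants `Cst : ℂ →+* R`, an involution `cj` and two commuting
derivations `D = ∂_z`, `D' = ∂_w` exchanged by `cj`.
-/

set_option autoImplicit false
set_option linter.unusedSectionVars false

namespace N2

/-- commutative ring with constants, involution `cj` and commuting derivations `D`, `D'` exchanged by `cj` -/
class DR (R : Type) [CommRing R] where
  Cst : ℂ →+* R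
  cj : R →+* R
  D : R → R
  D' : R → R
  D_add' : ∀ f g, D (f + g) = D f + D g
  D'_add' : ∀ f g, D' (f + g) = D' f + D' g
  D_mul' : ∀ f g, D (f * g) = D f * g + f * D g
  D'_mul' : ∀ f g, D' (f * g) = D' f * g + f * D' g
  D_Cst' : ∀ c, D (Cst c) = 0
  D'_Cst' : ∀ c, D' (Cst c) = 0
  D_comm' : ∀ f, D (D' f) = D' (D f)
  cj_cj' : ∀ f, cj (cj f) = f
  cj_Cst' : ∀ c, cj (Cst c) = Cst ((starRingEnd ℂ) c)
  D'_cj' : ∀ f, D' (cj f) = cj (D f)

export DR (Cst cj D D')

variable {R : Type} [CommRing R] [DR R]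

@[simp] lemma D_add (f g : R) : D (f + g) = D f + D g := DR.D_add' f g
@[simp] lemma D'_add (f g : R) : D' (f + g) = D' f + D' g := DR.D'_add' f g
lemma D_mul (f g : R) : D (f * g) = D f * g + f * D g := DR.D_mul' f g
lemma D'_mul (f g : R) : D' (f * g) = D' f * g + f * D' g := DR.D'_mul' f g
@[simp] lemma D_Cst (c : ℂ) : D (Cst c : R) = 0 := DR.D_Cst' c
@[simp] lemma D'_Cst (c : ℂ) : D' (Cst c : R) = 0 := DR.D'_Cst' c
@[simp] lemma D_one : D (1 : R) = 0 := by
  have h := D_Cst (R := R) 1
  rwa [map_one] at h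
@[simp] lemma D'_one : D' (1 : R) = 0 := by
  have h := D'_Cst (R := R) 1
  rwa [map_one] at h
@[simp] lemma D_zero : D (0 : R) = 0 := by
  have h := D_Cst (R := R) 0
  rwa [map_zero] at h
@[simp] lemma D'_zero : D' (0 : R) = 0 := by
  have h := D'_Cst (R := R) 0
  rwa [map_zero] at h
@[simp] lemma D_neg (f : R) : D (-f) = -D f := by
  have h := D_add f (-f)
  rw [add_neg_cancel, D_zero] at h
  exact (neg_eq_of_add_eq_zero_right h.symm).symm
@[simp] lemma D'_neg (f : R) : D' (-f) = -D' f := by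
  have h := D'_add f (-f)
  rw [add_neg_cancel, D'_zero] at h
  exact (neg_eq_of_add_eq_zero_right h.symm).symm
@[simp] lemma D_sub (f g : R) : D (f - g) = D f - D g := by
  rw [sub_eq_add_neg, D_add, D_neg, ← sub_eq_add_neg]
@[simp] lemma D'_sub (f g : R) : D' (f - g) = D' f - D' g := by
  rw [sub_eq_add_neg, D'_add, D'_neg, ← sub_eq_add_neg]
@[simp] lemma D_ofNat (n : ℕ) [n.AtLeastTwo] : D (ofNat(n) : R) = 0 := by
  have h : (OfNat.ofNat n : R) = Cst (OfNat.ofNat n) := (map_ofNat (Cst : ℂ →+* R) n).symm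
  exact (congrArg D h).trans (D_Cst _)
@[simp] lemma D'_ofNat (n : ℕ) [n.AtLeastTwo] : D' (ofNat(n) : R) = 0 := by
  have h : (OfNat.ofNat n : R) = Cst (OfNat.ofNat n) := (map_ofNat (Cst : ℂ →+* R) n).symm
  exact (congrArg D' h).trans (D'_Cst _)
lemma D_comm (f : R) : D (D' f) = D' (D f) := DR.D_comm' f
@[simp] lemma cj_cj (f : R) : cj (cj f) = f := DR.cj_cj' f
@[simp] lemma cj_Cst (c : ℂ) : cj (Cst c : R) = Cst ((starRingEnd ℂ) c) := DR.cj_Cst' c
lemma D'_cj (f : R) : D' (cj f) = cj (D f) := DR.D'_cj' f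
lemma D_cj (f : R) : D (cj f) = cj (D' f) := by
  have h := D'_cj (cj f)
  rw [cj_cj] at h
  rw [h, cj_cj]
lemma cj_real (k : ℝ) : cj (Cst (k : ℂ) : R) = Cst (k : ℂ) := by
  rw [cj_Cst, Complex.conj_ofReal]
/-- a rational multiple: cancel a non-zero complex constant -/
lemma Cst_mul_cancel {c : ℂ} (hc : c ≠ 0) {f g : R} (h : Cst c * f = Cst c * g) : f = g := by
  have h1 : (Cst (c⁻¹) : R) * Cst c = 1 := by rw [← map_mul, inv_mul_cancel₀ hc, map_one]
  calc f = (Cst (c⁻¹) * Cst c) * f := by rw [h1, one_mul]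
    _ = Cst (c⁻¹) * (Cst c * f) := by ring
    _ = Cst (c⁻¹) * (Cst c * g) := by rw [h]
    _ = g := by rw [← mul_assoc, h1, one_mul]

/-- bilinear product of vector functions -/
def dot {m : ℕ} (a b : Fin m → R) : R := ∑ i, a i * b i
/-- derivation of a vector function -/
def Dv {m : ℕ} (a : Fin m → R) : Fin m → R := fun i => D (a i)
/-- derivation of a vector function -/
def Dv' {m : ℕ} (a : Fin m → R) : Fin m → R := fun i => D' (a i)
/-- conjugation of a vector function -/
def cjv {m : ℕ} (a : Fin m → R) : Fin m → R := fun i => cj (a i)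

section
variable {m : ℕ}

lemma D_sum (a : Fin m → R) : D (∑ i, a i) = ∑ i, D (a i) := by
  classical
  induction (Finset.univ : Finset (Fin m)) using Finset.induction_on with
  | empty => simp
  | insert i s hi ih => rw [Finset.sum_insert hi, Finset.sum_insert hi, D_add, ih]
lemma D'_sum (a : Fin m → R) : D' (∑ i, a i) = ∑ i, D' (a i) := by
  classical
  induction (Finset.univ : Finset (Fin m)) using Finset.induction_on with
  | empty => simp
  | insert i s hi ih => rw [Finset.sum_insert hi, Finset.sum_insert hi, D'_add, ih]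
lemma D_dot (a b : Fin m → R) : D (dot a b) = dot (Dv a) b + dot a (Dv b) := by
  simp only [dot, D_sum, D_mul, Dv, Finset.sum_add_distrib]
lemma D'_dot (a b : Fin m → R) : D' (dot a b) = dot (Dv' a) b + dot a (Dv' b) := by
  simp only [dot, D'_sum, D'_mul, Dv', Finset.sum_add_distrib]
lemma dot_comm (a b : Fin m → R) : dot a b = dot b a := by
  simp only [dot, mul_comm]
lemma dot_add (a b c : Fin m → R) : dot a (b + c) = dot a b + dot a c := by
  simp only [dot, Pi.add_apply, mul_add, Finset.sum_add_distrib]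
lemma add_dot (a b c : Fin m → R) : dot (a + b) c = dot a c + dot b c := by
  simp only [dot, Pi.add_apply, add_mul, Finset.sum_add_distrib]
lemma dot_sub (a b c : Fin m → R) : dot a (b - c) = dot a b - dot a c := by
  simp only [dot, Pi.sub_apply, mul_sub, Finset.sum_sub_distrib]
lemma sub_dot (a b c : Fin m → R) : dot (a - b) c = dot a c - dot b c := by
  simp only [dot, Pi.sub_apply, sub_mul, Finset.sum_sub_distrib]
lemma dot_smul (a b : Fin m → R) (c : R) : dot a (c • b) = c * dot a b := by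
  simp only [dot, Pi.smul_apply, smul_eq_mul, Finset.mul_sum]
  exact Finset.sum_congr rfl fun i _ => by ring
lemma smul_dot (a b : Fin m → R) (c : R) : dot (c • a) b = c * dot a b := by
  simp only [dot, Pi.smul_apply, smul_eq_mul, Finset.mul_sum]
  exact Finset.sum_congr rfl fun i _ => by ring
lemma dot_neg (a b : Fin m → R) : dot a (-b) = -dot a b := by
  simp only [dot, Pi.neg_apply, mul_neg, Finset.sum_neg_distrib]
lemma neg_dot (a b : Fin m → R) : dot (-a) b = -dot a b := by
  simp only [dot, Pi.neg_apply, neg_mul, Finset.sum_neg_distrib]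
lemma zero_dot (a : Fin m → R) : dot 0 a = 0 := by simp [dot]
lemma dot_zero (a : Fin m → R) : dot a 0 = 0 := by simp [dot]
lemma Dv_add (a b : Fin m → R) : Dv (a + b) = Dv a + Dv b := by
  funext i; simp [Dv]
lemma Dv'_add (a b : Fin m → R) : Dv' (a + b) = Dv' a + Dv' b := by
  funext i; simp [Dv']
lemma Dv_sub (a b : Fin m → R) : Dv (a - b) = Dv a - Dv b := by
  funext i; simp [Dv]
lemma Dv'_sub (a b : Fin m → R) : Dv' (a - b) = Dv' a - Dv' b := by
  funext i; simp [Dv']
lemma Dv_neg (a : Fin m → R) : Dv (-a) = -Dv a := by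
  funext i; simp [Dv]
lemma Dv'_neg (a : Fin m → R) : Dv' (-a) = -Dv' a := by
  funext i; simp [Dv']
lemma Dv_smul (c : R) (a : Fin m → R) : Dv (c • a) = D c • a + c • Dv a := by
  funext i; simp [Dv, D_mul]
lemma Dv'_smul (c : R) (a : Fin m → R) : Dv' (c • a) = D' c • a + c • Dv' a := by
  funext i; simp [Dv', D'_mul]
lemma Dv_comm (a : Fin m → R) : Dv (Dv' a) = Dv' (Dv a) := by
  funext i; exact D_comm (a i)
lemma cj_dot (a b : Fin m → R) : cj (dot a b) = dot (cjv a) (cjv b) := by
  simp only [dot, map_sum, map_mul, cjv]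
lemma Dv'_cjv (a : Fin m → R) : Dv' (cjv a) = cjv (Dv a) := by
  funext i; exact D'_cj (a i)
lemma Dv_cjv (a : Fin m → R) : Dv (cjv a) = cjv (Dv' a) := by
  funext i; exact D_cj (a i)
lemma cjv_cjv (a : Fin m → R) : cjv (cjv a) = a := by
  funext i; exact cj_cj (a i)
lemma cjv_add (a b : Fin m → R) : cjv (a + b) = cjv a + cjv b := by
  funext i; simp [cjv]
lemma cjv_sub (a b : Fin m → R) : cjv (a - b) = cjv a - cjv b := by
  funext i; simp [cjv]
lemma cjv_neg (a : Fin m → R) : cjv (-a) = -cjv a := by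
  funext i; simp [cjv]
lemma cjv_smul (c : R) (a : Fin m → R) : cjv (c • a) = cj c • cjv a := by
  funext i; simp [cjv]
end

/-- a complex valued character of the differential ring (evaluation at a point, or a limit of such) -/
structure Ev (R : Type) [CommRing R] [DR R] where
  h : R →+* ℂ
  hcj : ∀ x, h (cj x) = (starRingEnd ℂ) (h x)
  hC : ∀ c, h (Cst c) = c

instance : CoeFun (Ev R) (fun _ => R → ℂ) := ⟨fun χ => χ.h⟩

/-- the real dot product of the character values of a vector with its conjugate is nonnegative -/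
lemma Ev.dot_cjv {m : ℕ} (χ : Ev R) (a : Fin m → R) :
    χ (dot a (cjv a)) = ((∑ i, ‖χ (a i)‖ ^ 2 : ℝ) : ℂ) := by
  simp only [dot, map_sum, map_mul, cjv, χ.hcj, Complex.ofReal_sum]
  refine Finset.sum_congr rfl fun i _ => ?_
  rw [Complex.mul_conj, Complex.normSq_eq_norm_sq]

lemma Ev.dot {m : ℕ} (χ : Ev R) (a b : Fin m → R) :
    χ (dot a b) = ∑ i, χ (a i) * χ (b i) := by
  simp only [N2.dot, map_sum, map_mul]

end N2
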