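import Pool.Agent.Helper5.N2.All

set_option autoImplicit false

namespace N2

/-- subquadratic growth of the harmonic part implies that it is affine -/
theorem P5_of_growth {m : ℕ} (N : Nt Sm m) (x : Fin m → Sm) (hA : Dv x = N.A)
    (hgr : ∀ j, ∀ ε : ℝ, 0 < ε → ∃ C : ℝ, 0 ≤ C ∧
      ∀ p : ℝ × ℝ, ‖(x j - N.ps j).val p‖ ≤ ε * (p.1 ^ 2 + p.2 ^ 2) + C) : N.P5 := by
  have hG := all_GRAD
  funext j
  refine Sm.ext_ev fun p => ?_
  show (D (N.Ph j)).val p = 0
  set h : Sm := x j - N.ps j with hh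
  have hDh : D h = N.Ph j := by
    have h1 : D (x j) = N.A j := congrFun hA j
    rw [hh, D_sub, h1]; rfl
  have hD'Ph : D' (N.Ph j) = 0 := congrFun N.hPhi j
  have key : ∀ ε : ℝ, 0 < ε → ‖(D (N.Ph j)).val p‖ ≤ 1216 * ε := by
    intro ε hε
    obtain ⟨C, hC0, hC⟩ := hgr j ε hε
    set d : ℝ := ‖p‖ + C / ε + 1 with hd
    have hd1 : 1 ≤ d := by
      have : 0 ≤ ‖p‖ + C / ε := by positivity
      linarith
    have hd0 : 0 < d := by linarith
    have hpd : ‖p‖ ≤ d := by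
      have : 0 ≤ C / ε := by positivity
      linarith
    have hCd : C ≤ ε * d ^ 2 := by
      have h1 : C / ε ≤ d := by
        have : 0 ≤ ‖p‖ := norm_nonneg _
        linarith
      have h2 : C ≤ ε * d := by
        rw [div_le_iff₀ hε] at h1; linarith
      have h3 : ε * d ≤ ε * d ^ 2 := mul_le_mul_of_nonneg_left (by nlinarith) hε.le
      linarith
    have hp1 : |p.1| ≤ d := (norm_fst_le p).trans hpd
    have hp2 : |p.2| ≤ d := (norm_snd_le p).trans hpd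
    have hM : ∀ r : ℝ × ℝ, |r.1 - p.1| ≤ 2 * d → |r.2 - p.2| ≤ 2 * d → ‖ev r h‖ ≤ 19 * ε * d ^ 2 := by
      intro r h1 h2
      have h3 : |r.1| ≤ 3 * d := by
        have := abs_add_le (r.1 - p.1) p.1
        rw [sub_add_cancel] at this; linarith
      have h4 : |r.2| ≤ 3 * d := by
        have := abs_add_le (r.2 - p.2) p.2
        rw [sub_add_cancel] at this; linarith
      have h5 : r.1 ^ 2 ≤ (3 * d) ^ 2 := by rw [← sq_abs]; exact pow_le_pow_left₀ (abs_nonneg _) h3 2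
      have h6 : r.2 ^ 2 ≤ (3 * d) ^ 2 := by rw [← sq_abs]; exact pow_le_pow_left₀ (abs_nonneg _) h4 2
      have h7 := hC r
      have h8 : ε * (r.1 ^ 2 + r.2 ^ 2) ≤ ε * ((3 * d) ^ 2 + (3 * d) ^ 2) :=
        mul_le_mul_of_nonneg_left (add_le_add h5 h6) hε.le
      rw [ev_val]
      nlinarith
    have h1 : ∀ q : ℝ × ℝ, |q.1 - p.1| ≤ d → |q.2 - p.2| ≤ d → ‖ev q (N.Ph j)‖ ≤ 152 * ε * d := by
      intro q hq1 hq2
      have hb := hG h q d (19 * ε * d ^ 2) 0 hd0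
        (fun r hr1 hr2 => hM r (by
            have := abs_add_le (r.1 - q.1) (q.1 - p.1)
            rw [sub_add_sub_cancel] at this; linarith) (by
            have := abs_add_le (r.2 - q.2) (q.2 - p.2)
            rw [sub_add_sub_cancel] at this; linarith))
        (fun r _ _ => by rw [hDh, hD'Ph]; simp)
      rw [hDh] at hb
      refine hb.trans (le_of_eq ?_)
      field_simp; ring
    have h2 := hG (N.Ph j) p d (152 * ε * d) 0 hd0 h1
      (fun r _ _ => by rw [← D_comm, hD'Ph, D_zero]; simp)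
    refine h2.trans (le_of_eq ?_)
    field_simp; ring
  by_contra hne
  have hpos : 0 < ‖(D (N.Ph j)).val p‖ := norm_pos_iff.2 hne
  have := key (‖(D (N.Ph j)).val p‖ / 2432) (by positivity)
  linarith

/-- Theorem B in its first final form -/
theorem fin_harm (f : ℝ × ℝ → EuclideanSpace ℝ (Fin 4)) (g11 g12 g22 dt : ℝ × ℝ → ℝ)
    (Lap : (ℝ × ℝ → EuclideanSpace ℝ (Fin 4)) → ℝ × ℝ → EuclideanSpace ℝ (Fin 4))
    (hI : Imm 4 f g11 g12 g22 dt Lap) (c : ℝ) (hc : c ≠ 0) (hL : ∀ p, Lap (Lap f) p = c • Lap f p)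
    (hgr : ∀ ε : ℝ, 0 < ε → ∃ C : ℝ, ∀ p : ℝ × ℝ,
      ‖f p - (1 / c) • Lap f p‖ ≤ ε * (p.1 ^ 2 + p.2 ^ 2) + C) :
    ∃ k : ℝ, ∀ p, ‖Lap f p‖ = k := by
  obtain ⟨N, x, hk, hps, hF, hx, hxr, hxA, hg⟩ := N252.st_CONV 4 f g11 g12 g22 dt Lap hI c hc hL
  have hsq : ∀ p, Real.sqrt (ev p N.g).re = ‖Lap f p‖ / |c| := by
    intro p
    rw [hg p, Real.sqrt_div (by positivity), Real.sqrt_sq (norm_nonneg _), Real.sqrt_sq_eq_abs]
  have hc' : 0 < |c| := abs_pos.2 hc
  have h5 : N.P5 := by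
    refine P5_of_growth N x hxA fun j ε hε => ?_
    obtain ⟨C, hC⟩ := hgr ε hε
    refine ⟨|C|, abs_nonneg _, fun p => ?_⟩
    have h1 : (x j - N.ps j).val p = (((f p - (1 / c) • Lap f p) j : ℝ) : ℂ) := by
      rw [sub_val, hx j p, hps j p, ← Complex.ofReal_sub]
      congr 1
    rw [h1, Complex.norm_real]
    refine (PiLp.norm_apply_le (f p - (1 / c) • Lap f p) j).trans ((hC p).trans ?_)
    have := le_abs_self C
    linarith
  have hcon := all_ASM N h5
  refine ⟨‖Lap f 0‖, fun p => ?_⟩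
  have h1 := hsq p
  have h2 := hsq 0
  rw [hcon p 0, h2] at h1
  rw [div_left_inj' hc'.ne'] at h1
  exact h1.symm

end N2
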