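import Pool.Agent.Helper5.N2.Conf
import Pool.Agent.Helper5.N2.Fin

set_option autoImplicit false

namespace N2

theorem ConfImm.imm {m : ℕ} {f : ℝ × ℝ → EuclideanSpace ℝ (Fin m)} {g : ℝ × ℝ → ℝ}
    (h : ConfImm m f g) : Imm m f g (fun _ => 0) g (fun p => g p ^ 2) (LB g) := by
  obtain ⟨h0, hg, h1, h2, h3⟩ := h
  refine ⟨h0, fun p => (h1 p).symm, fun p => (h3 p).symm, fun p => (h2 p).symm, fun p => by ring,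
    fun p => by have := hg p; positivity, fun _ => rfl, fun _ => rfl, fun u p => ?_⟩
  have e1 : (fun q => (Real.sqrt (g q ^ 2))⁻¹ •
      (g q • fderiv ℝ u q (1, 0) - (0 : ℝ) • fderiv ℝ u q (0, 1))) = fun q => fderiv ℝ u q (1, 0) := by
    funext q
    rw [Real.sqrt_sq (hg q).le, zero_smul, sub_zero, smul_smul, inv_mul_cancel₀ (hg q).ne', one_smul]
  have e2 : (fun q => (Real.sqrt (g q ^ 2))⁻¹ •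
      (g q • fderiv ℝ u q (0, 1) - (0 : ℝ) • fderiv ℝ u q (1, 0))) = fun q => fderiv ℝ u q (0, 1) := by
    funext q
    rw [Real.sqrt_sq (hg q).le, zero_smul, sub_zero, smul_smul, inv_mul_cancel₀ (hg q).ne', one_smul]
  show (g p)⁻¹ • flatLap u p = _
  rw [e1, e2, Real.sqrt_sq (hg p).le]
  rfl

theorem conf_harm (f : ℝ × ℝ → EuclideanSpace ℝ (Fin 4)) (g : ℝ × ℝ → ℝ) (hI : ConfImm 4 f g)
    (c : ℝ) (hc : c ≠ 0) (hL : ∀ p, LB g (LB g f) p = c • LB g f p)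
    (hgr : ∀ ε : ℝ, 0 < ε → ∃ C : ℝ, ∀ p : ℝ × ℝ,
      ‖f p - (1 / c) • LB g f p‖ ≤ ε * (p.1 ^ 2 + p.2 ^ 2) + C) :
    ∃ k : ℝ, ∀ p, ‖LB g f p‖ = k :=
  fin_harm f g _ g _ (LB g) hI.imm c hc hL hgr

theorem conf_metric (f : ℝ × ℝ → EuclideanSpace ℝ (Fin 4)) (g : ℝ × ℝ → ℝ) (hI : ConfImm 4 f g)
    (c : ℝ) (hc : c ≠ 0) (hL : ∀ p, LB g (LB g f) p = c • LB g f p)
    (hg : ∀ ε : ℝ, 0 < ε → ∃ C : ℝ, ∀ p : ℝ × ℝ, g p ≤ ε * (p.1 ^ 2 + p.2 ^ 2) + C)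
    (he : (∃ c0 : ℝ, 0 < c0 ∧ ∀ p : ℝ × ℝ, c0 / (1 + (p.1 ^ 2 + p.2 ^ 2)) ≤ g p) ∨
      (∀ R : ℝ, IsCompact {p | ‖f p‖ ≤ R})) :
    ∃ k : ℝ, ∀ p, ‖LB g f p‖ = k :=
  all_THB f g _ g _ (LB g) hI.imm c hc hL (Or.inr (Or.inl ⟨hg, Or.inr he⟩))

theorem conf_curv (m : ℕ) (f : ℝ × ℝ → EuclideanSpace ℝ (Fin m)) (g : ℝ × ℝ → ℝ) (hI : ConfImm m f g)
    (c : ℝ) (hc : c ≠ 0) (hL : ∀ p, LB g (LB g f) p = c • LB g f p)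
    (hK : ∀ p, flatLap (fun q => Real.log (g q)) p ≤ 0)
    (he : (∃ c0 : ℝ, 0 < c0 ∧ ∀ p : ℝ × ℝ, c0 / (1 + (p.1 ^ 2 + p.2 ^ 2)) ≤ g p) ∨
      (∀ R : ℝ, IsCompact {p | ‖f p‖ ≤ R})) :
    ∃ k : ℝ, ∀ p, ‖LB g f p‖ = k :=
  all_THA m f g _ g _ (LB g) hI.imm hK he ⟨c, hc, hL⟩

end N2
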