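import Pool.Agent.Helper5.N2.Stmts

set_option autoImplicit false

namespace N2

theorem st_P (h1 : ST_G1) (h2 : ST_G2) (h3 : ST_G3) (h4 : ST_G4) : ST_P := by
  intro R _ _ m N hP
  obtain ⟨hKr, hG, hg, hy, hGF, hDK, hD'K, hB, hA, hBB, hAB, hAA, hpA, hpB, hDF, hD'F, hDG, hD'G⟩ := h1 R m N
  obtain ⟨hbA, hbB, htA, htB, hbA', hbB', htA', htB', hq, hq', hDg, hD'g, hal', hU', hV, hk1', hS', hBBr,
    hbeA, hbeB, hbeA', hbeB'⟩ := h2 R m N
  obtain ⟨hDA, hD'B, hDps, hD'ps, hPh, hPh', htb', ht'b, hD'q, hDq', hD'ta, hDta'⟩ := h3 R m N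
  obtain ⟨hD'al, hDal', hD'ph, hD'b, hDb', hPA, hDDg, hPP⟩ := h4 R m N
  have hBA : dot N.B N.A = N.F := by rw [dot_comm]; exact hAB
  have etp : dot N.ta N.ps = N.al := dot_comm _ _
  have etp' : dot N.ta' N.ps = N.al' := by rw [hal']; exact dot_comm _ _
  have epp : dot N.ps N.ps = N.g := rfl
  have ebp : dot N.b N.ps = N.q := by rw [hq]; exact dot_comm _ _
  have ebp' : dot N.b' N.ps = N.q' := by rw [hq']; exact dot_comm _ _
  have ett : dot N.ta N.ta = N.U := rfl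
  have ett' : dot N.ta N.ta' = N.V := rfl
  have et't : dot N.ta' N.ta = N.V := dot_comm _ _
  have etb : dot N.ta N.b = N.k1 := rfl
  have ebt : dot N.b N.ta = N.k1 := dot_comm _ _
  have ebb : dot N.b N.b = N.S := rfl
  have ebb' : dot N.b N.b' = N.BB := rfl
  have eb'b : dot N.b' N.b = N.BB := dot_comm _ _
  have hDy : D N.y = -(2 * N.K * N.al) := by
    unfold Nt.y; rw [D_sub, D_one, D_mul, hDK, hDg]; ring
  have hD'y : D' N.y = -(2 * N.K * N.al') := by
    unfold Nt.y; rw [D'_sub, D'_one, D'_mul, hD'K, hD'g]; ring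
  have hDta0 : Dv N.ta = (D N.y • N.A + N.y • (N.ph • N.A + N.b))
      + (D (N.q * N.G) • N.B + (N.q * N.G) • ((-(N.K * N.F)) • N.ps)) := by
    have hP' : Dv N.Ph = 0 := hP
    rw [hPh, Dv_sub, Dv_add, Dv_smul, Dv_smul, hDA, hB] at hP'
    exact (sub_eq_zero.mp hP').symm
  have hyph : N.y * N.ph = 3 * N.K * N.al := by
    have e1 : dot (Dv N.ta) N.B = N.K * N.F * N.al := by
      have h := congrArg D htB
      rw [D_dot, D_zero, hB, dot_smul, etp] at h
      linear_combination h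
    rw [hDta0] at e1
    simp only [add_dot, smul_dot, hAB, hbB, hBB, hpB, hDy] at e1
    linear_combination N.G * e1 + (N.G * N.F) * 0 + (-(N.y * N.ph - 3 * N.K * N.al)) * hGF
  have hDqG : D (N.q * N.G) = -(N.k1 * N.G) := by
    have e1 : dot (Dv N.ta) N.A = -N.k1 := by
      have h := congrArg D htA
      rw [D_dot, D_zero, hDA, dot_add, dot_smul, htA, etb] at h
      linear_combination h
    rw [hDta0] at e1
    simp only [add_dot, smul_dot, hAA, hbA, hBA, hpA] at e1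
    linear_combination N.G * e1 + (-(D (N.q * N.G))) * hGF
  have hDq : D N.q = N.q * N.ph - N.k1 := by
    have h := hDqG
    rw [D_mul, hDG] at h
    linear_combination N.F * h + (-(D N.q - N.q * N.ph + N.k1)) * hGF
  have hDta : Dv N.ta = N.y • N.b - (N.K * N.q) • N.ps + (N.K * N.al) • N.A - (N.k1 * N.G) • N.B := by
    rw [hDta0, hDqG, hDy]
    have h7 : (N.q * N.G) * (N.K * N.F) = N.K * N.q := by linear_combination (N.K * N.q) * hGF
    funext i
    simp only [Pi.add_apply, Pi.sub_apply, Pi.smul_apply, smul_eq_mul]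
    linear_combination (-N.ps i) * h7 + (N.A i) * hyph
  have hDal : D N.al = N.U + (1 - 2 * N.K * N.g) * N.q := by
    have e1 : D N.al = dot (Dv N.ps) N.ta + dot N.ps (Dv N.ta) := by unfold Nt.al; rw [D_dot]
    rw [e1, hDps, hDta]
    simp only [sub_dot, add_dot, dot_sub, dot_add, smul_dot, dot_smul, ett, epp, hpA, hpB, ← hq,
      dot_comm N.B N.ta, dot_comm N.A N.ta, htA, htB]
    have : N.y = 1 - N.K * N.g := rfl
    rw [this]; ring
  have hZ : N.y * N.BB = 3 * N.K * N.F * N.V + 3 * N.K * N.q * N.q' - 2 * N.K * N.K * N.F * N.F * N.g * N.y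
      + 2 * N.K * N.F * N.al' * N.ph := by
    have h := congrArg D' hyph
    have h3 : D' (3 * N.K : R) = 0 := by rw [D'_mul, D'_ofNat, hD'K]; ring
    rw [D'_mul, D'_mul, h3, hD'y, hD'ph, hD'al] at h
    linear_combination N.F * h + (3 * N.K * N.q * N.q' - N.y * N.BB) * hGF
  have hDb_b : ∀ v : Fin m → R, dot v N.A = 0 → dot v N.B = 0 → dot v (Dv N.b) = dot v N.be := by
    intro v hvA hvB
    unfold Nt.be
    rw [dot_sub, dot_add, dot_smul, dot_smul, hvA, hvB]; ring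
  have hpsbe : dot N.ps N.be = N.q * N.ph - 2 * N.k1 := by
    have e1 : D N.q = dot (Dv N.ps) N.b + dot N.ps (Dv N.b) := by rw [hq, D_dot]
    rw [hDq, hDps, hDb_b N.ps hpA hpB] at e1
    simp only [sub_dot, add_dot, smul_dot, etb, dot_comm N.A N.b, dot_comm N.B N.b, hbA, hbB] at e1
    linear_combination -e1
  have h7 : N.q' * N.G * N.S - N.K * N.F * N.y * N.q + dot N.ta' N.be
      = 2 * N.K * N.F * (N.ph * N.al + D N.al) := by
    have h := congrArg D ht'b
    have h3 : D (2 * N.K * N.F * N.al : R) = 2 * N.K * N.F * (N.ph * N.al + D N.al) := by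
      rw [D_mul, D_mul, D_mul, D_ofNat, hDK, hDF]; ring
    rw [D_dot, h3, hDta', hDb_b N.ta' htA' htB'] at h
    simp only [sub_dot, add_dot, smul_dot, ebb, ← hq, dot_comm N.A N.b, dot_comm N.B N.b, hbA, hbB] at h
    linear_combination h
  have hDBB : D N.BB = dot N.b' N.be - 2 * N.K * N.K * N.F * N.F * N.al := by
    have e1 : D N.BB = dot (Dv N.b) N.b' + dot N.b (Dv N.b') := by unfold Nt.BB; rw [D_dot]
    rw [e1, dot_comm (Dv N.b) N.b', hDb_b N.b' hbA' hbB', hDb']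
    simp only [dot_sub, dot_add, dot_smul, hbA, hbB, dot_comm N.b N.ta', ht'b]
    ring
  have hDV : D N.V = N.K * N.F * N.y * N.al - N.K * N.q * N.al' + N.q' * N.G * N.k1 := by
    have e1 : D N.V = dot (Dv N.ta) N.ta' + dot N.ta (Dv N.ta') := by unfold Nt.V; rw [D_dot]
    rw [e1, hDta, hDta']
    simp only [sub_dot, add_dot, dot_sub, dot_add, smul_dot, dot_smul, dot_comm N.b N.ta', ht'b,
      dot_comm N.ps N.ta', etp', dot_comm N.A N.ta', dot_comm N.B N.ta', htA', htB', etp, etb, htA, htB]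
    ring
  have hDk1 : D N.k1 = N.y * N.S - N.K * N.q * N.q + dot N.ta N.be := by
    have e1 : D N.k1 = dot (Dv N.ta) N.b + dot N.ta (Dv N.b) := by unfold Nt.k1; rw [D_dot]
    rw [e1, hDta, hDb_b N.ta htA htB]
    simp only [sub_dot, add_dot, smul_dot, ebb, ← hq, dot_comm N.A N.b, dot_comm N.B N.b, hbA, hbB]
    ring
  have hD'k1 : D' N.k1 = N.q * N.G * N.BB - N.K * N.F * N.y * N.q - N.K * N.F * N.U := by
    have e1 : D' N.k1 = dot (Dv' N.ta) N.b + dot N.ta (Dv' N.b) := by unfold Nt.k1; rw [D'_dot]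
    rw [e1, hD'ta, hD'b]
    simp only [sub_dot, add_dot, dot_sub, dot_add, smul_dot, dot_smul, eb'b, ← hq,
      dot_comm N.A N.b, dot_comm N.B N.b, hbA, hbB, ett, htA, htB]
    ring
  exact ⟨hyph, hDq, hDta, hDal, hZ, hpsbe, h7, hDBB, hDV, hDk1, hD'k1⟩

theorem st_I (h1 : ST_G1) (h2 : ST_G2) (h4 : ST_G4) (hPr : ST_P) : ST_I := by
  intro R _ _ m N hP
  obtain ⟨hKr, hG, hg, hy, hGF, hDK, hD'K, hB, hA, hBB, hAB, hAA, hpA, hpB, hDF, hD'F, hDG, hD'G⟩ := h1 R m N
  obtain ⟨hbA, hbB, htA, htB, hbA', hbB', htA', htB', hq, hq', hDg, hD'g, hal', hU', hV, hk1', hS', hBBr,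
    hbeA, hbeB, hbeA', hbeB'⟩ := h2 R m N
  have hyph : N.y * N.ph = 3 * N.K * N.al := (hPr R m N hP).1
  have hDy : D N.y = -(2 * N.K * N.al) := by
    unfold Nt.y; rw [D_sub, D_one, D_mul, hDK, hDg]; ring
  have e1 : D (N.F * N.F * N.y * N.y * N.y) = 0 := by
    simp only [D_mul, hDF, hDy]
    linear_combination (2 * N.F * N.F * N.y * N.y) * hyph
  have e2 : D' (N.F * N.F * N.y * N.y * N.y) = 0 := by
    have h := congrArg cj e1
    rw [← D'_cj, map_zero] at h
    simpa only [map_mul, N.hFr, hy] using h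
  have hPh' : Dv N.Ph' = 0 := by
    unfold Nt.Ph'
    have h0 : Dv' N.Ph = 0 := N.hPhi
    rw [Dv_cjv, h0]; funext i; simp [cjv]
  have e3 : D (dot N.Ph N.Ph') = 0 := by
    have hP' : Dv N.Ph = 0 := hP
    rw [D_dot, hP', hPh', zero_dot, dot_zero, add_zero]
  have e4 : D' (dot N.Ph N.Ph') = 0 := by
    have h := congrArg cj e3
    rw [← D'_cj, map_zero, cj_dot] at h
    have h5 : cjv N.Ph' = N.Ph := cjv_cjv _
    rw [h5, dot_comm] at h
    exact h
  exact ⟨e1, e2, e3, e4⟩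

end N2
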