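import Pool.Agent.Helper5.N2.DR

/-!
# The ring `Sm` of smooth complex functions on the plane, with the derivations `D = ∂_z`, `D' = ∂_w`
-/

set_option autoImplicit false
open scoped ContDiff

namespace N2

/-- smooth complex functions on the plane -/
def SmSub : Subalgebra ℂ (ℝ × ℝ → ℂ) where
  carrier := {f | ContDiff ℝ ∞ f}
  mul_mem' := by intro a b ha hb; exact ContDiff.mul (Set.mem_ofPred_eq ▸ ha) (Set.mem_ofPred_eq ▸ hb)
  add_mem' := by intro a b ha hb; exact ContDiff.add (Set.mem_ofPred_eq ▸ ha) (Set.mem_ofPred_eq ▸ hb)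
  algebraMap_mem' := by
    intro r
    show ContDiff ℝ ∞ (fun _ : ℝ × ℝ => r)
    exact contDiff_const

/-- smooth complex functions on the plane -/
def Sm : Type := ↥SmSub

noncomputable instance : CommRing Sm := inferInstanceAs (CommRing ↥SmSub)
noncomputable instance : Algebra ℂ Sm := inferInstanceAs (Algebra ℂ ↥SmSub)

/-- the underlying function -/
def Sm.val (f : Sm) : ℝ × ℝ → ℂ := Subtype.val f

/-- constructor -/
def Sm.mk (f : ℝ × ℝ → ℂ) (h : ContDiff ℝ ∞ f) : Sm := ⟨f, h⟩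

@[simp] lemma mk_val (f : ℝ × ℝ → ℂ) (h : ContDiff ℝ ∞ f) : (Sm.mk f h).val = f := rfl

lemma Sm.contDiff (f : Sm) : ContDiff ℝ ∞ f.val := f.2

lemma Sm.diff (f : Sm) : Differentiable ℝ f.val := f.contDiff.differentiable (by simp)

lemma Sm.ext {f g : Sm} (h : ∀ p, f.val p = g.val p) : f = g := Subtype.ext (funext h)

/-- directional derivative -/
noncomputable def pd (e : ℝ × ℝ) (f : Sm) : Sm :=
  Sm.mk (fun p => fderiv ℝ f.val p e) (by
    have h : ContDiff ℝ ∞ (fderiv ℝ f.val) := ContDiff.fderiv_right (m := ∞) f.contDiff le_rfl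
    exact h.clm_apply contDiff_const)

@[simp] lemma add_val (f g : Sm) (p : ℝ × ℝ) : (f + g).val p = f.val p + g.val p := rfl
@[simp] lemma mul_val (f g : Sm) (p : ℝ × ℝ) : (f * g).val p = f.val p * g.val p := rfl
@[simp] lemma sub_val (f g : Sm) (p : ℝ × ℝ) : (f - g).val p = f.val p - g.val p := rfl
@[simp] lemma neg_val (f : Sm) (p : ℝ × ℝ) : (-f).val p = -f.val p := rfl
@[simp] lemma smul_val (c : ℂ) (f : Sm) (p : ℝ × ℝ) : (c • f).val p = c * f.val p := rfl
@[simp] lemma one_val (p : ℝ × ℝ) : (1 : Sm).val p = 1 := rfl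
@[simp] lemma zero_val (p : ℝ × ℝ) : (0 : Sm).val p = 0 := rfl

/-- constants -/
noncomputable def cst : ℂ →+* Sm := algebraMap ℂ Sm
@[simp] lemma cst_val (c : ℂ) (p : ℝ × ℝ) : (cst c).val p = c := rfl

/-- evaluation at a point -/
def evr (p : ℝ × ℝ) : Sm →+* ℂ where
  toFun f := f.val p
  map_one' := rfl
  map_mul' _ _ := rfl
  map_zero' := rfl
  map_add' _ _ := rfl

lemma pd_apply (e : ℝ × ℝ) (f : Sm) (p : ℝ × ℝ) : (pd e f).val p = fderiv ℝ f.val p e := rfl

lemma pd_add (e : ℝ × ℝ) (f g : Sm) : pd e (f + g) = pd e f + pd e g := by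
  apply Sm.ext; intro p
  change fderiv ℝ (fun q => f.val q + g.val q) p e = fderiv ℝ f.val p e + fderiv ℝ g.val p e
  rw [fderiv_fun_add (f.diff p) (g.diff p)]; rfl

lemma pd_mul (e : ℝ × ℝ) (f g : Sm) : pd e (f * g) = pd e f * g + f * pd e g := by
  apply Sm.ext; intro p
  change fderiv ℝ (fun q => f.val q * g.val q) p e
    = fderiv ℝ f.val p e * g.val p + f.val p * fderiv ℝ g.val p e
  rw [fderiv_fun_mul (f.diff p) (g.diff p)]
  simp only [ContinuousLinearMap.add_apply, ContinuousLinearMap.smul_apply, smul_eq_mul]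
  ring

lemma pd_cst (e : ℝ × ℝ) (c : ℂ) : pd e (cst c) = 0 := by
  apply Sm.ext; intro p
  change fderiv ℝ (fun _ => c) p e = 0
  simp

lemma smul_eq_cst (c : ℂ) (f : Sm) : c • f = cst c * f := by
  apply Sm.ext; intro p; rfl

lemma pd_neg (e : ℝ × ℝ) (f : Sm) : pd e (-f) = - pd e f := by
  have h1 : -f = cst (-1) * f := by
    apply Sm.ext; intro p; simp
  have h2 : -(pd e f) = cst (-1) * pd e f := by
    apply Sm.ext; intro p; simp
  rw [h1, h2, pd_mul, pd_cst, zero_mul, zero_add]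

lemma pd_comm (e e' : ℝ × ℝ) (f : Sm) : pd e (pd e' f) = pd e' (pd e f) := by
  apply Sm.ext; intro p
  have h2 : Differentiable ℝ (fderiv ℝ f.val) :=
    (ContDiff.fderiv_right (m := ∞) f.contDiff le_rfl).differentiable (by simp)
  have hs : IsSymmSndFDerivAt ℝ f.val p :=
    (f.contDiff.contDiffAt).isSymmSndFDerivAt (by rw [minSmoothness_of_isRCLikeNormedField]; exact WithTop.coe_le_coe.2 le_top)
  change fderiv ℝ (fun q => fderiv ℝ f.val q e') p e = fderiv ℝ (fun q => fderiv ℝ f.val q e) p e'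
  have h1 : ∀ v w : ℝ × ℝ, fderiv ℝ (fun q => fderiv ℝ f.val q v) p w
      = fderiv ℝ (fderiv ℝ f.val) p w v := by
    intro v w
    rw [fderiv_clm_apply (h2 p) (differentiableAt_const v)]
    simp
  rw [h1, h1]
  exact hs e e'

/-- `∂_z` -/
noncomputable def Sm.Dz (f : Sm) : Sm := cst (1 / 2) * (pd (1, 0) f - cst Complex.I * pd (0, 1) f)
/-- `∂_w`, `w = conj z` -/
noncomputable def Sm.Dw (f : Sm) : Sm := cst (1 / 2) * (pd (1, 0) f + cst Complex.I * pd (0, 1) f)

/-- complex conjugation -/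
noncomputable def Sm.conj : Sm →+* Sm where
  toFun f := Sm.mk (fun p => (starRingEnd ℂ) (f.val p)) (by
    have : ContDiff ℝ ∞ (fun z : ℂ => (starRingEnd ℂ) z) := Complex.conjCLE.contDiff
    exact this.comp f.contDiff)
  map_one' := by apply Sm.ext; intro p; simp
  map_mul' f g := by apply Sm.ext; intro p; simp
  map_zero' := by apply Sm.ext; intro p; simp
  map_add' f g := by apply Sm.ext; intro p; simp

@[simp] lemma Sm.conj_val (f : Sm) (p : ℝ × ℝ) : (Sm.conj f).val p = (starRingEnd ℂ) (f.val p) := rfl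

lemma pd_conj (e : ℝ × ℝ) (f : Sm) : pd e (Sm.conj f) = Sm.conj (pd e f) := by
  apply Sm.ext; intro p
  change fderiv ℝ (fun q => Complex.conjCLE (f.val q)) p e = Complex.conjCLE (fderiv ℝ f.val p e)
  have := (Complex.conjCLE.toContinuousLinearMap.hasFDerivAt.comp p (f.diff p).hasFDerivAt).fderiv
  have h2 : fderiv ℝ (fun q => Complex.conjCLE (f.val q)) p
      = (Complex.conjCLE.toContinuousLinearMap).comp (fderiv ℝ f.val p) := this
  rw [h2]; rfl

noncomputable instance : DR Sm where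
  Cst := cst
  cj := Sm.conj
  D := Sm.Dz
  D' := Sm.Dw
  D_add' f g := by simp only [Sm.Dz, pd_add]; ring
  D'_add' f g := by simp only [Sm.Dw, pd_add]; ring
  D_mul' f g := by simp only [Sm.Dz, pd_mul]; ring
  D'_mul' f g := by simp only [Sm.Dw, pd_mul]; ring
  D_Cst' c := by simp [Sm.Dz, pd_cst]
  D'_Cst' c := by simp [Sm.Dw, pd_cst]
  D_comm' f := by
    have h := pd_comm (1, 0) (0, 1) f
    simp only [Sm.Dz, Sm.Dw, pd_mul, pd_add, sub_eq_add_neg, pd_cst, zero_mul, zero_add, pd_neg]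
    linear_combination (cst (1/2) * cst (1/2) * cst Complex.I * 2) * h
  cj_cj' f := by apply Sm.ext; intro p; simp
  cj_Cst' c := by apply Sm.ext; intro p; simp
  D'_cj' f := by
    have h12 : cst (1/2 : ℂ) = Sm.conj (cst (1/2)) := by
      apply Sm.ext; intro p
      simp only [Sm.conj_val, cst_val, map_div₀, map_one, map_ofNat]
    have hI : cst Complex.I = - Sm.conj (cst Complex.I) := by
      apply Sm.ext; intro p; simp
    simp only [Sm.Dz, Sm.Dw, pd_conj, map_mul, map_sub]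
    rw [← h12]
    linear_combination (cst (1/2) * Sm.conj (pd (0, 1) f)) * hI

/-- evaluation at a point, as a character -/
def ev (p : ℝ × ℝ) : Ev Sm where
  h := evr p
  hcj _ := rfl
  hC _ := rfl

lemma ev_val (p : ℝ × ℝ) (f : Sm) : ev p f = f.val p := rfl
@[simp] lemma Cst_val (c : ℂ) (p : ℝ × ℝ) : (Cst c : Sm).val p = c := rfl
@[simp] lemma cj_val (f : Sm) (p : ℝ × ℝ) : (cj f).val p = (starRingEnd ℂ) (f.val p) := rfl

lemma Sm.ext_ev {f g : Sm} (h : ∀ p, ev p f = ev p g) : f = g := Sm.ext h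

/-- `∂_z` in terms of the real partial derivatives -/
lemma D_val (f : Sm) (p : ℝ × ℝ) :
    (D f).val p = (1 / 2) * (fderiv ℝ f.val p (1, 0) - Complex.I * fderiv ℝ f.val p (0, 1)) := rfl
/-- `∂_w` in terms of the real partial derivatives -/
lemma D'_val (f : Sm) (p : ℝ × ℝ) :
    (D' f).val p = (1 / 2) * (fderiv ℝ f.val p (1, 0) + Complex.I * fderiv ℝ f.val p (0, 1)) := rfl

end N2
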