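import Pool.Agent.Helper5.N2.Ring

/-!
# The ring `Smb` of smooth functions on the plane all of whose derivatives are bounded
-/

set_option autoImplicit false

namespace N2

/-- all derivatives up to order `n` are bounded -/
def BdN : ℕ → Sm → Prop
  | 0, f => ∃ M : ℝ, ∀ p, ‖ev p f‖ ≤ M
  | n + 1, f => (∃ M : ℝ, ∀ p, ‖ev p f‖ ≤ M) ∧ BdN n (D f) ∧ BdN n (D' f)

/-- all derivatives are bounded -/
def Bdd (f : Sm) : Prop := ∀ n, BdN n f

lemma BdN.zero {n : ℕ} {f : Sm} (h : BdN n f) : ∃ M : ℝ, ∀ p, ‖ev p f‖ ≤ M := by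
  cases n with
  | zero => exact h
  | succ n => exact h.1

lemma BdN.pred {n : ℕ} : ∀ {f : Sm}, BdN (n + 1) f → BdN n f := by
  induction n with
  | zero => intro f h; exact h.1
  | succ n ih => intro f h; exact ⟨h.1, ih h.2.1, ih h.2.2⟩

lemma BdN.add {n : ℕ} : ∀ {f g : Sm}, BdN n f → BdN n g → BdN n (f + g) := by
  have h0 : ∀ {f g : Sm}, (∃ M : ℝ, ∀ p, ‖ev p f‖ ≤ M) → (∃ M : ℝ, ∀ p, ‖ev p g‖ ≤ M) →
      ∃ M : ℝ, ∀ p, ‖ev p (f + g)‖ ≤ M := by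
    rintro f g ⟨M, hM⟩ ⟨M', hM'⟩
    refine ⟨M + M', fun p => ?_⟩
    rw [map_add]
    exact (norm_add_le _ _).trans (add_le_add (hM p) (hM' p))
  induction n with
  | zero => intro f g hf hg; exact h0 hf hg
  | succ n ih =>
    intro f g hf hg
    refine ⟨h0 hf.1 hg.1, ?_, ?_⟩
    · rw [D_add]; exact ih hf.2.1 hg.2.1
    · rw [D'_add]; exact ih hf.2.2 hg.2.2

lemma BdN.mul {n : ℕ} : ∀ {f g : Sm}, BdN n f → BdN n g → BdN n (f * g) := by
  have h0 : ∀ {f g : Sm}, (∃ M : ℝ, ∀ p, ‖ev p f‖ ≤ M) → (∃ M : ℝ, ∀ p, ‖ev p g‖ ≤ M) →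
      ∃ M : ℝ, ∀ p, ‖ev p (f * g)‖ ≤ M := by
    rintro f g ⟨M, hM⟩ ⟨M', hM'⟩
    refine ⟨M * M', fun p => ?_⟩
    rw [map_mul, norm_mul]
    exact mul_le_mul (hM p) (hM' p) (norm_nonneg _) ((norm_nonneg _).trans (hM p))
  induction n with
  | zero => intro f g hf hg; exact h0 hf hg
  | succ n ih =>
    intro f g hf hg
    refine ⟨h0 hf.1 hg.1, ?_, ?_⟩
    · rw [D_mul]; exact (ih hf.2.1 hg.pred).add (ih hf.pred hg.2.1)
    · rw [D'_mul]; exact (ih hf.2.2 hg.pred).add (ih hf.pred hg.2.2)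

lemma BdN.Cst (n : ℕ) (c : ℂ) : BdN n (Cst c) := by
  have h0 : ∀ c : ℂ, ∃ M : ℝ, ∀ p, ‖ev p (DR.Cst c : Sm)‖ ≤ M := fun c => ⟨‖c‖, fun p => le_rfl⟩
  induction n generalizing c with
  | zero => exact h0 c
  | succ n ih =>
    refine ⟨h0 c, ?_, ?_⟩
    · rw [D_Cst, ← map_zero (DR.Cst : ℂ →+* Sm)]; exact ih 0
    · rw [D'_Cst, ← map_zero (DR.Cst : ℂ →+* Sm)]; exact ih 0

lemma BdN.cj {n : ℕ} : ∀ {f : Sm}, BdN n f → BdN n (cj f) := by
  have h0 : ∀ {f : Sm}, (∃ M : ℝ, ∀ p, ‖ev p f‖ ≤ M) → ∃ M : ℝ, ∀ p, ‖ev p (DR.cj f)‖ ≤ M := by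
    rintro f ⟨M, hM⟩
    refine ⟨M, fun p => ?_⟩
    rw [(ev p).hcj, RCLike.norm_conj]; exact hM p
  induction n with
  | zero => intro f hf; exact h0 hf
  | succ n ih =>
    intro f hf
    refine ⟨h0 hf.1, ?_, ?_⟩
    · rw [D_cj]; exact ih hf.2.2
    · rw [D'_cj]; exact ih hf.2.1

lemma BdN.D {n : ℕ} {f : Sm} (h : BdN (n + 1) f) : BdN n (D f) := h.2.1
lemma BdN.D' {n : ℕ} {f : Sm} (h : BdN (n + 1) f) : BdN n (D' f) := h.2.2

/-- the subring of functions all of whose derivatives are bounded -/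
def SmbSub : Subring Sm where
  carrier := {f | Bdd f}
  mul_mem' := fun ha hb n => (ha n).mul (hb n)
  one_mem' := fun n => by rw [← map_one (DR.Cst : ℂ →+* Sm)]; exact BdN.Cst n 1
  add_mem' := fun ha hb n => (ha n).add (hb n)
  zero_mem' := fun n => by rw [← map_zero (DR.Cst : ℂ →+* Sm)]; exact BdN.Cst n 0
  neg_mem' := fun {f} ha n => by
    have h : -f = DR.Cst (-1) * f := by rw [map_neg, map_one]; ring
    rw [h]; exact (BdN.Cst n (-1)).mul (ha n)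

/-- smooth functions all of whose derivatives are bounded -/
def Smb : Type := ↥SmbSub
noncomputable instance : CommRing Smb := inferInstanceAs (CommRing ↥SmbSub)

/-- inclusion into `Sm` -/
noncomputable def toSm : Smb →+* Sm := SmbSub.subtype
/-- constructor -/
noncomputable def Smb.mk (f : Sm) (h : Bdd f) : Smb := ⟨f, h⟩
@[simp] lemma toSm_mk (f : Sm) (h : Bdd f) : toSm (Smb.mk f h) = f := rfl
lemma Smb.bdd (f : Smb) : Bdd (toSm f) := f.2
lemma toSm_inj {f g : Smb} (h : toSm f = toSm g) : f = g := Subtype.ext h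

noncomputable instance : DR Smb where
  Cst := (DR.Cst : ℂ →+* Sm).codRestrict SmbSub (fun c n => BdN.Cst n c)
  cj := ((DR.cj : Sm →+* Sm).comp SmbSub.subtype).codRestrict SmbSub (fun f n => (f.2 n).cj)
  D f := Smb.mk (DR.D (toSm f)) (fun n => (f.2 (n + 1)).2.1)
  D' f := Smb.mk (DR.D' (toSm f)) (fun n => (f.2 (n + 1)).2.2)
  D_add' f g := Subtype.ext (D_add (toSm f) (toSm g))
  D'_add' f g := Subtype.ext (D'_add (toSm f) (toSm g))
  D_mul' f g := Subtype.ext (D_mul (toSm f) (toSm g))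
  D'_mul' f g := Subtype.ext (D'_mul (toSm f) (toSm g))
  D_Cst' c := Subtype.ext (D_Cst (R := Sm) c)
  D'_Cst' c := Subtype.ext (D'_Cst (R := Sm) c)
  D_comm' f := Subtype.ext (D_comm (toSm f))
  cj_cj' f := Subtype.ext (cj_cj (toSm f))
  cj_Cst' c := Subtype.ext (cj_Cst (R := Sm) c)
  D'_cj' f := Subtype.ext (D'_cj (toSm f))

@[simp] lemma toSm_D (f : Smb) : toSm (D f) = D (toSm f) := rfl
@[simp] lemma toSm_D' (f : Smb) : toSm (D' f) = D' (toSm f) := rfl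
@[simp] lemma toSm_cj (f : Smb) : toSm (cj f) = cj (toSm f) := rfl
@[simp] lemma toSm_Cst (c : ℂ) : toSm (Cst c) = Cst c := rfl

/-- evaluation at a point -/
noncomputable def evb (p : ℝ × ℝ) : Ev Smb where
  h := (ev p).h.comp toSm
  hcj _ := rfl
  hC _ := rfl

lemma evb_eq (p : ℝ × ℝ) (f : Smb) : evb p f = ev p (toSm f) := rfl

end N2
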