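import Pool.Agent.Helper5.N2.Smb

/-!
# Null 2-type conformal immersions of the plane: data, notation, statements of the algebraic rows

Everything in this file is over an arbitrary differential ring `R` (class `DR`); `χ : Ev R` is a character.
-/

set_option autoImplicit false

namespace N2

/-- data of a null 2-type conformal immersion of the plane in `ℝ^m`:
`A = x_z`, `ps = x_2`, `F = x_z · x_w`, `G = 1/F`, `x_zw = -k F ps`, `(x_z - ps_z)_w = 0` -/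
structure Nt (R : Type) [CommRing R] [DR R] (m : ℕ) where
  k : ℝ
  hk : k ≠ 0
  A : Fin m → R
  ps : Fin m → R
  F : R
  G : R
  hFG : F * G = 1
  hFr : cj F = F
  hpr : cjv ps = ps
  hAA : dot A A = 0
  hAB : dot A (cjv A) = F
  hA : Dv' A = (-(Cst (k : ℂ) * F)) • ps
  hPhi : Dv' (A - Dv ps) = 0

namespace Nt
variable {R : Type} [CommRing R] [DR R] {m : ℕ} (N : Nt R m)
def K : R := Cst (N.k : ℂ)
def B : Fin m → R := cjv N.A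
def g : R := dot N.ps N.ps
def y : R := 1 - N.K * N.g
def ph : R := D N.F * N.G
def ph' : R := cj N.ph
def q : R := dot N.ps (Dv N.A)
def q' : R := cj N.q
def b : Fin m → R := Dv N.A - N.ph • N.A
def b' : Fin m → R := cjv N.b
def ta : Fin m → R := Dv N.ps - (N.K * N.g) • N.A + (N.q * N.G) • N.B
def ta' : Fin m → R := cjv N.ta
def Ph : Fin m → R := N.A - Dv N.ps
def Ph' : Fin m → R := cjv N.Ph
def al : R := dot N.ps N.ta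
def al' : R := cj N.al
def U : R := dot N.ta N.ta
def U' : R := cj N.U
def V : R := dot N.ta N.ta'
def k1 : R := dot N.ta N.b
def k1' : R := cj N.k1
def S : R := dot N.b N.b
def S' : R := cj N.S
def BB : R := dot N.b N.b'
/-- normal part of `b_z` -/
def be : Fin m → R := Dv N.b + (N.S * N.G) • N.B - (N.K * N.q) • N.A
def be' : Fin m → R := cjv N.be
/-- the harmonic part is affine -/
def P5 : Prop := Dv N.Ph = 0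
end Nt

/-- G1: elementary facts -/
def ST_G1 : Prop := ∀ (R : Type) [CommRing R] [DR R] (m : ℕ) (N : Nt R m),
  cj N.K = N.K ∧ cj N.G = N.G ∧ cj N.g = N.g ∧ cj N.y = N.y ∧ N.G * N.F = 1 ∧
  D N.K = 0 ∧ D' N.K = 0 ∧
  Dv N.B = (-(N.K * N.F)) • N.ps ∧ Dv' N.A = (-(N.K * N.F)) • N.ps ∧
  dot N.B N.B = 0 ∧ dot N.A N.B = N.F ∧ dot N.A N.A = 0 ∧
  dot N.ps N.A = 0 ∧ dot N.ps N.B = 0 ∧
  D N.F = N.ph * N.F ∧ D' N.F = N.ph' * N.F ∧ D N.G = -(N.ph * N.G) ∧ D' N.G = -(N.ph' * N.G)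

/-- G2: orthogonality of the normal vectors `b`, `ta` (and conjugates) to the tangent vectors -/
def ST_G2 : Prop := ∀ (R : Type) [CommRing R] [DR R] (m : ℕ) (N : Nt R m),
  dot N.b N.A = 0 ∧ dot N.b N.B = 0 ∧ dot N.ta N.A = 0 ∧ dot N.ta N.B = 0 ∧
  dot N.b' N.A = 0 ∧ dot N.b' N.B = 0 ∧ dot N.ta' N.A = 0 ∧ dot N.ta' N.B = 0 ∧
  N.q = dot N.ps N.b ∧ N.q' = dot N.ps N.b' ∧
  D N.g = 2 * N.al ∧ D' N.g = 2 * N.al' ∧ N.al' = dot N.ps N.ta' ∧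
  N.U' = dot N.ta' N.ta' ∧ cj N.V = N.V ∧ N.k1' = dot N.ta' N.b' ∧ N.S' = dot N.b' N.b' ∧
  cj N.BB = N.BB ∧
  dot N.be N.A = 0 ∧ dot N.be N.B = 0 ∧ dot N.be' N.A = 0 ∧ dot N.be' N.B = 0

/-- G3: structure equations -/
def ST_G3 : Prop := ∀ (R : Type) [CommRing R] [DR R] (m : ℕ) (N : Nt R m),
  Dv N.A = N.ph • N.A + N.b ∧ Dv' N.B = N.ph' • N.B + N.b' ∧
  Dv N.ps = N.ta + (N.K * N.g) • N.A - (N.q * N.G) • N.B ∧
  Dv' N.ps = N.ta' + (N.K * N.g) • N.B - (N.q' * N.G) • N.A ∧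
  N.Ph = N.y • N.A + (N.q * N.G) • N.B - N.ta ∧
  N.Ph' = N.y • N.B + (N.q' * N.G) • N.A - N.ta' ∧
  dot N.ta N.b' = 2 * N.K * N.F * N.al' ∧ dot N.ta' N.b = 2 * N.K * N.F * N.al ∧
  D' N.q = N.K * N.F * N.al ∧ D N.q' = N.K * N.F * N.al' ∧
  Dv' N.ta = (-(N.K * N.F * N.y)) • N.ps + (N.q * N.G) • N.b' - (2 * N.K * N.al') • N.A
    + (N.K * N.al) • N.B ∧
  Dv N.ta' = (-(N.K * N.F * N.y)) • N.ps + (N.q' * N.G) • N.b - (2 * N.K * N.al) • N.B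
    + (N.K * N.al') • N.A

/-- G4: second set of structure equations, Gauss equation -/
def ST_G4 : Prop := ∀ (R : Type) [CommRing R] [DR R] (m : ℕ) (N : Nt R m),
  D' N.al = N.V + N.q * N.q' * N.G - N.K * N.F * N.y * N.g ∧
  D N.al' = N.V + N.q * N.q' * N.G - N.K * N.F * N.y * N.g ∧
  D' N.ph = N.BB * N.G - N.K * N.K * N.F * N.g ∧
  Dv' N.b = (-(N.K * N.F)) • N.ta - (N.BB * N.G) • N.A + (N.K * N.q) • N.B ∧
  Dv N.b' = (-(N.K * N.F)) • N.ta' - (N.BB * N.G) • N.B + (N.K * N.q') • N.A ∧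
  dot N.Ph' N.A = N.y * N.F ∧
  D' (D N.g) = 2 * dot N.Ph N.Ph' - 2 * (N.y * N.F) ∧
  dot N.Ph N.Ph' = N.y * N.y * N.F + N.q * N.q' * N.G + N.V

/-- P: the equations when the harmonic part is affine -/
def ST_P : Prop := ∀ (R : Type) [CommRing R] [DR R] (m : ℕ) (N : Nt R m), N.P5 →
  N.y * N.ph = 3 * N.K * N.al ∧
  D N.q = N.q * N.ph - N.k1 ∧
  Dv N.ta = N.y • N.b - (N.K * N.q) • N.ps + (N.K * N.al) • N.A - (N.k1 * N.G) • N.B ∧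
  D N.al = N.U + (1 - 2 * N.K * N.g) * N.q ∧
  N.y * N.BB = 3 * N.K * N.F * N.V + 3 * N.K * N.q * N.q' - 2 * N.K * N.K * N.F * N.F * N.g * N.y
    + 2 * N.K * N.F * N.al' * N.ph ∧
  dot N.ps N.be = N.q * N.ph - 2 * N.k1 ∧
  N.q' * N.G * N.S - N.K * N.F * N.y * N.q + dot N.ta' N.be
    = 2 * N.K * N.F * (N.ph * N.al + D N.al) ∧
  D N.BB = dot N.b' N.be - 2 * N.K * N.K * N.F * N.F * N.al ∧
  D N.V = N.K * N.F * N.y * N.al - N.K * N.q * N.al' + N.q' * N.G * N.k1 ∧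
  D N.k1 = N.y * N.S - N.K * N.q * N.q + dot N.ta N.be ∧
  D' N.k1 = N.q * N.G * N.BB - N.K * N.F * N.y * N.q - N.K * N.F * N.U

/-- first integrals: `F² y³` and `Φ·Φ'` are constant -/
def ST_I : Prop := ∀ (R : Type) [CommRing R] [DR R] (m : ℕ) (N : Nt R m), N.P5 →
  D (N.F * N.F * N.y * N.y * N.y) = 0 ∧ D' (N.F * N.F * N.y * N.y * N.y) = 0 ∧
  D (dot N.Ph N.Ph') = 0 ∧ D' (dot N.Ph N.Ph') = 0

/-- D2: second derivative of Z at a critical point of `g` -/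
def ST_D2 : Prop := ∀ (R : Type) [CommRing R] [DR R] (m : ℕ) (N : Nt R m) (χ : Ev R), N.P5 →
  χ N.al = 0 → χ N.k1 = 0 → χ N.y ≠ 0 →
  χ N.y * χ (dot N.b' (Dv N.be))
    = 2 * χ N.K * χ (D N.al) * χ N.BB
      + χ N.K * χ N.F * χ N.y * χ (dot N.ta' N.be)
      + χ N.K ^ 2 * χ N.F ^ 2 * χ (D N.al) * (χ N.y + 4 * χ N.K * χ N.g)
      + χ (D N.ph) * (7 * χ N.K * χ N.F * χ N.V + 7 * χ N.K * χ N.q * χ N.q'
          - 8 * χ N.K ^ 2 * χ N.F ^ 2 * χ N.g * χ N.y)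

/-- D2b: `ps · be_z` at a critical point -/
def ST_D2b : Prop := ∀ (R : Type) [CommRing R] [DR R] (m : ℕ) (N : Nt R m) (χ : Ev R), N.P5 →
  χ N.al = 0 → χ N.y ≠ 0 →
  χ (dot N.ps (Dv N.be)) = χ N.q * χ (D N.ph)
      - 2 * (χ N.y * χ N.S - χ N.K * χ N.q ^ 2) - 3 * χ (dot N.ta N.be) ∧
  χ N.y * χ (D N.ph) = 3 * χ N.K * χ (D N.al)

/-- DD: mixed second derivative of Z at a critical point of `g` (no condition on `k1`) -/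
def ST_DD : Prop := ∀ (R : Type) [CommRing R] [DR R] (m : ℕ) (N : Nt R m) (χ : Ev R), N.P5 →
  χ N.al = 0 → χ N.y ≠ 0 →
  -(2 * χ N.K * χ (D' N.al) * χ N.BB)
    + χ N.y * (χ (dot N.be N.be') - χ N.K * χ N.F * χ N.y * χ N.BB
        + χ N.K ^ 2 * χ N.F * χ N.q * χ N.q'
        + (χ N.S * χ N.S' - χ N.BB ^ 2) * χ N.G
        - 2 * χ N.K ^ 2 * χ N.F ^ 2 * χ (D' N.al))
  = 3 * χ N.K * χ N.F * (χ (D' N.ph) * χ N.V
        + (χ N.K * χ N.F * χ N.y * χ (D' N.al)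
           - χ N.K * χ N.q * (starRingEnd ℂ) (χ (D N.al))
           + χ N.q' * χ N.G * (χ N.q * χ N.G * χ N.BB
               - χ N.K * χ N.F * χ N.y * χ N.q - χ N.K * χ N.F * χ N.U)))
    + 3 * χ N.K ^ 2 * χ N.F * (χ (D N.al) * χ N.q'
        + χ N.q * (starRingEnd ℂ) (χ (D N.al)))
    - 4 * χ N.K ^ 2 * χ N.F ^ 2 * (χ (D' N.ph) * χ N.g * χ N.y
        + χ (D' N.al) * (χ N.y - χ N.K * χ N.g))
    + 2 * χ N.K * χ N.F * ((starRingEnd ℂ) (χ (D N.al)) * χ (D N.ph)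
        + χ (D' N.al) * χ (D' N.ph))

/-- plane geometry: in `ℂ⁴`, the orthogonal complement of the span of `A, B`
(`A·A = B·B = 0`, `A·B ≠ 0`) has dimension 2: the Gram determinant of three normal vectors with three
normal vectors vanishes. -/
def ST_GRAM : Prop := ∀ (A B v1 v2 v3 w1 w2 w3 : Fin 4 → ℂ),
  (∑ i, A i * A i = 0) → (∑ i, B i * B i = 0) → (∑ i, A i * B i ≠ 0) →
  (∀ v ∈ [v1, v2, v3, w1, w2, w3], ∑ i, v i * A i = 0 ∧ ∑ i, v i * B i = 0) →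
  (∑ i, v1 i * w1 i) * ((∑ i, v2 i * w2 i) * (∑ i, v3 i * w3 i) - (∑ i, v2 i * w3 i) * (∑ i, v3 i * w2 i))
  - (∑ i, v1 i * w2 i) * ((∑ i, v2 i * w1 i) * (∑ i, v3 i * w3 i) - (∑ i, v2 i * w3 i) * (∑ i, v3 i * w1 i))
  + (∑ i, v1 i * w3 i) * ((∑ i, v2 i * w1 i) * (∑ i, v3 i * w2 i) - (∑ i, v2 i * w2 i) * (∑ i, v3 i * w1 i))
  = 0

/-- normalised form of `∂_z² Z = 0` at a critical point -/
def RelD2 (t w n : ℝ) (b : ℂ) : Prop :=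
  ((t * ‖b‖ ^ 2 : ℝ) : ℂ) * (((1 - 2 * t : ℝ) : ℂ) * b + (w : ℂ))
    - ((2 * (1 - t) * (1 - 2 * t) * ‖b‖ ^ 2 : ℝ) : ℂ) * b
    - ((1 - t : ℝ) : ℂ) * (3 * (starRingEnd ℂ) b + 1)
        * (2 * (((1 - 2 * t : ℝ) : ℂ) * b + (w : ℂ)) - ((t * ‖b‖ ^ 2 : ℝ) : ℂ) * b + ((1 - t : ℝ) : ℂ) * b)
    - (((1 - 2 * t : ℝ) : ℂ) * b + (w : ℂ))
    - ((21 * t * n / (1 - t) : ℝ) : ℂ) * (((1 - 2 * t : ℝ) : ℂ) * b + (w : ℂ)) = 0

/-- normalised form of `∂_z ∂_w Z = 0` at a critical point -/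
def RelDD (t w n : ℝ) (b : ℂ) : Prop :=
  (1 - t) * ‖2 * (((1 - 2 * t : ℝ) : ℂ) * b + (w : ℂ)) - ((t * ‖b‖ ^ 2 : ℝ) : ℂ) * b
        + ((1 - t : ℝ) : ℂ) * b‖ ^ 2 / w
    - 2 * t * n * ‖b‖ ^ 2 - (1 - t) * (1 - 2 * t) * ‖b‖ ^ 2 - 2 * (1 - t) * n - 9 * t * n * w / (1 - t)
    - 3 * (1 - t) * n - 3 * t ^ 2 * ‖b‖ ^ 4 + 3 * t * (1 - t) * ‖b‖ ^ 2 - 3 * t * (1 - 2 * t) * ‖b‖ ^ 2
    + 4 * n * (1 + t)
    - (6 * t / (1 - t)) * (‖((1 - 2 * t : ℝ) : ℂ) * b + (w : ℂ)‖ ^ 2 + n ^ 2) = 0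

/-- CR: critical points of `g` with `ps ≠ 0`, `ta ≠ 0` -/
def ST_CR : Prop := ∀ (R : Type) [CommRing R] [DR R] (N : Nt R 4) (χ : Ev R), N.P5 → 0 < N.k →
  χ N.al = 0 → χ N.g ≠ 0 → χ N.V ≠ 0 → 0 < (χ N.y).re →
  ∃ (t w n s : ℝ) (b : ℂ), t = N.k * (χ N.g).re ∧ 0 < t ∧ t < 1 ∧ 0 < w ∧
    n = w + t * ‖b‖ ^ 2 - (1 - t) ∧ (1 - 4 * t) * ‖b‖ ^ 2 = 3 * w - 2 * (1 - t) ∧
    0 < s ∧ (χ (D' N.al)).re = s * n ∧
    ‖χ (D N.al)‖ = s * ‖((1 - 2 * t : ℝ) : ℂ) * b + (w : ℂ)‖ ∧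
    (χ (dot N.Ph N.Ph')).re = (χ N.F).re * ((1 - t) + n * t) ∧
    RelD2 t w n b ∧ RelDD t w n b

/-- CR0: critical points of `g` with `ps ≠ 0`, `ta = 0` -/
def ST_CR0 : Prop := ∀ (R : Type) [CommRing R] [DR R] (N : Nt R 4) (χ : Ev R), N.P5 → 0 < N.k →
  χ N.al = 0 → χ N.g ≠ 0 → χ N.V = 0 → 0 < (χ N.y).re →
  ∃ (t n s β c ε : ℝ), t = N.k * (χ N.g).re ∧ 0 < t ∧ t < 1 ∧ 0 ≤ β ∧ β ^ 2 ≤ c ∧ 0 ≤ ε ∧
    n = t * β ^ 2 - (1 - t) ∧ (1 - t) * c = 3 * t * β ^ 2 - 2 * (1 - t) ∧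
    0 < s ∧ (χ (D' N.al)).re = s * n ∧ ‖χ (D N.al)‖ = s * (|1 - 2 * t| * β) ∧
    (χ (dot N.Ph N.Ph')).re = (χ N.F).re * ((1 - t) + n * t) ∧
    (β = 0 ∨ ((t * c = 3 - 5 * t ∨ t * c + (3 - 5 * t) = 2 * t * β ^ 2) ∧ (ε = 0 ∨ c = β ^ 2) ∧
      -(2 * t * n * c) + (1 - t) * (ε - (1 - t) * c + t * β ^ 2 + t * ((3 - 5 * t) ^ 2 / t ^ 2 - c ^ 2) - 2 * n)
        = 3 * (1 - t) * n + 3 * t * (1 - 2 * t) * β ^ 2 + 3 * t ^ 2 * β ^ 2 * c - 3 * t * (1 - t) * β ^ 2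
          - 4 * n * (1 + t) + (6 * t / (1 - t)) * ((1 - 2 * t) ^ 2 * β ^ 2 + n ^ 2)))

/-- ZERO: at a zero of `ps` the normal part of `ps_z` vanishes -/
def ST_ZERO : Prop := ∀ (R : Type) [CommRing R] [DR R] (N : Nt R 4) (χ : Ev R), N.P5 → 0 < N.k →
  χ N.g = 0 → χ N.V = 0

end N2
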