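import Pool.Agent.Helper5.N2.Stmts

/-!
# Analytic rows, pure inequalities, final statements
-/

set_option autoImplicit false

namespace N2

/-- constants -/
def ST_CON : Prop := ∀ f : Sm, D f = 0 → D' f = 0 → ∃ c : ℂ, f = Cst c

/-- max: first and second order conditions at a local maximum of a real smooth function -/
def ST_MAX : Prop := ∀ (f : Sm) (p : ℝ × ℝ), cj f = f →
  IsLocalMax (fun x => (f.val x).re) p →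
  ev p (D f) = 0 ∧ ‖ev p (D (D f))‖ ≤ -(ev p (D' (D f))).re

/-- Liouville: a real smooth subharmonic function on the plane which is bounded above is constant -/
def ST_LIO : Prop := ∀ (f : Sm), cj f = f → (∀ p, 0 ≤ (ev p (D' (D f))).re) →
  (∃ C : ℝ, ∀ p, (ev p f).re ≤ C) → ∀ p p', ev p f = ev p' f

/-- interior gradient estimate (Gilbarg-Trudinger 3.4) -/
def ST_GRAD : Prop := ∀ (u : Sm) (p : ℝ × ℝ) (d M0 M1 : ℝ), 0 < d →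
  (∀ q : ℝ × ℝ, |q.1 - p.1| ≤ d → |q.2 - p.2| ≤ d → ‖ev q u‖ ≤ M0) →
  (∀ q : ℝ × ℝ, |q.1 - p.1| ≤ d → |q.2 - p.2| ≤ d → ‖ev q (D' (D u))‖ ≤ M1) →
  ‖ev p (D u)‖ ≤ 8 * M0 / d + 8 * d * M1

/-- limit characters: a real bounded function has a character realising its supremum, with the first and
second order conditions of a maximum -/
def ST_ULT : Prop := ∀ f : Smb, cj f = f → ∃ χ : Ev Smb,
  (∀ p, (evb p f).re ≤ (χ f).re) ∧ χ (D f) = 0 ∧ ‖χ (D (D f))‖ ≤ -(χ (D' (D f))).re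

/-- SLOPE: blow-up in finite distance is impossible -/
def ST_SLOPE : Prop := ∀ (F : Sm) (δ M : ℝ), cj F = F → (∀ p, 0 < (ev p F).re) → 0 < δ →
  (∀ p, M < (ev p F).re → δ * (ev p F).re ^ 3 ≤ ‖ev p (D F)‖ ^ 2) → ∀ p, (ev p F).re ≤ M

/-- YB: if the harmonic part is affine then `g` is bounded -/
def ST_YB : Prop := ∀ (m : ℕ) (N : Nt Sm m), N.P5 → ∃ M : ℝ, ∀ p, (ev p N.g).re ≤ M

/-- FBD: if the harmonic part is affine, `k > 0`, `y > 0`, then `F` is bounded -/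
def ST_FBD : Prop := ∀ (m : ℕ) (N : Nt Sm m), N.P5 → 0 < N.k → (∀ p, 0 < (ev p N.y).re) →
  ∃ M : ℝ, ∀ p, (ev p N.F).re ≤ M

/-- BJ: all derivatives are bounded -/
def ST_BJ : Prop := ∀ (m : ℕ) (N : Nt Sm m), N.P5 → 0 < N.k → (∀ p, 0 < (ev p N.y).re) →
  (∃ M : ℝ, ∀ p, (ev p N.F).re ≤ M) →
  ∃ N' : Nt Smb m, N'.k = N.k ∧ (∀ i, toSm (N'.A i) = N.A i) ∧ (∀ i, toSm (N'.ps i) = N.ps i) ∧ N'.P5

/-- PMIN: pure inequality at a minimum -/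
def ST_PMIN : Prop := ∀ (t w n : ℝ) (b : ℂ), 0 < t → t < 1 → 0 < w →
  n = w + t * ‖b‖ ^ 2 - (1 - t) → (1 - 4 * t) * ‖b‖ ^ 2 = 3 * w - 2 * (1 - t) →
  RelD2 t w n b → ‖((1 - 2 * t : ℝ) : ℂ) * b + (w : ℂ)‖ ≤ n →
  n = 0 ∨ 8 * (1 - t) ^ 3 ≤ 3 * ((1 - t) + n * t) ^ 2

/-- PMAX: pure inequality at a maximum -/
def ST_PMAX : Prop := ∀ (t w n : ℝ) (b : ℂ), 5 / 8 ≤ t → t < 1 → 0 < w →
  n = w + t * ‖b‖ ^ 2 - (1 - t) → (1 - 4 * t) * ‖b‖ ^ 2 = 3 * w - 2 * (1 - t) →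
  RelD2 t w n b → RelDD t w n b → ‖((1 - 2 * t : ℝ) : ℂ) * b + (w : ℂ)‖ ≤ -n →
  n = 0

/-- PMIN0: pure inequality at a minimum with `ta = 0` -/
def ST_PMIN0 : Prop := ∀ (t n β c ε : ℝ), 0 < t → t < 1 → 0 ≤ β → β ^ 2 ≤ c → 0 ≤ ε →
  n = t * β ^ 2 - (1 - t) → (1 - t) * c = 3 * t * β ^ 2 - 2 * (1 - t) →
  (t * c = 3 - 5 * t ∨ t * c + (3 - 5 * t) = 2 * t * β ^ 2) → (ε = 0 ∨ c = β ^ 2) →
  -(2 * t * n * c) + (1 - t) * (ε - (1 - t) * c + t * β ^ 2 + t * ((3 - 5 * t) ^ 2 / t ^ 2 - c ^ 2) - 2 * n)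
        = 3 * (1 - t) * n + 3 * t * (1 - 2 * t) * β ^ 2 + 3 * t ^ 2 * β ^ 2 * c - 3 * t * (1 - t) * β ^ 2
          - 4 * n * (1 + t) + (6 * t / (1 - t)) * ((1 - 2 * t) ^ 2 * β ^ 2 + n ^ 2) →
  |1 - 2 * t| * β ≤ n → n = 0 ∨ 8 * (1 - t) ^ 3 ≤ 3 * ((1 - t) + n * t) ^ 2

/-- PMAX0: pure inequality at a maximum with `ta = 0` -/
def ST_PMAX0 : Prop := ∀ (t n β c : ℝ), 5 / 8 ≤ t → t < 1 → 0 ≤ β → β ^ 2 ≤ c →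
  n = t * β ^ 2 - (1 - t) → (1 - t) * c = 3 * t * β ^ 2 - 2 * (1 - t) → ¬ (|1 - 2 * t| * β ≤ -n)

/-- ASMb: the case `k > 0`, `y > 0` with bounded derivatives -/
def ST_ASMb : Prop := ∀ (N : Nt Smb 4), N.P5 → 0 < N.k → (∀ p, 0 < (evb p N.y).re) →
  ∀ p p', evb p N.g = evb p' N.g

/-- ASM: if the harmonic part is affine then `g` is constant -/
def ST_ASM : Prop := ∀ (N : Nt Sm 4), N.P5 → ∀ p p', ev p N.g = ev p' N.g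

/-- growth `o(|p|²)` from above -/
def Sub2 (φ : ℝ × ℝ → ℝ) : Prop := ∀ ε : ℝ, 0 < ε → ∃ C : ℝ, ∀ p : ℝ × ℝ, φ p ≤ ε * (p.1 ^ 2 + p.2 ^ 2) + C

/-- B0: conformal factor and mean curvature `o(|z|²)` force an affine harmonic part -/
def ST_B0 : Prop := ∀ (m : ℕ) (N : Nt Sm m) (x : Fin m → Sm), cjv x = x → Dv x = N.A →
  Sub2 (fun p => (ev p N.F).re) → Sub2 (fun p => Real.sqrt (ev p N.g).re) → N.P5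

/-- the hypotheses: smooth conformal immersion of the plane, `Lap` is its Laplace-Beltrami operator -/
def Imm (m : ℕ) (f : ℝ × ℝ → EuclideanSpace ℝ (Fin m)) (g11 g12 g22 dt : ℝ × ℝ → ℝ)
    (Lap : (ℝ × ℝ → EuclideanSpace ℝ (Fin m)) → ℝ × ℝ → EuclideanSpace ℝ (Fin m)) : Prop :=
  ContDiff ℝ ((⊤ : ℕ∞) : WithTop ℕ∞) f ∧
  (∀ p, g11 p = inner ℝ (fderiv ℝ f p (1, 0)) (fderiv ℝ f p (1, 0))) ∧
  (∀ p, g12 p = inner ℝ (fderiv ℝ f p (1, 0)) (fderiv ℝ f p (0, 1))) ∧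
  (∀ p, g22 p = inner ℝ (fderiv ℝ f p (0, 1)) (fderiv ℝ f p (0, 1))) ∧
  (∀ p, dt p = g11 p * g22 p - g12 p ^ 2) ∧
  (∀ p, 0 < dt p) ∧ (∀ p, g12 p = 0) ∧ (∀ p, g11 p = g22 p) ∧
  (∀ (u : ℝ × ℝ → EuclideanSpace ℝ (Fin m)) (p : ℝ × ℝ),
      Lap u p = (Real.sqrt (dt p))⁻¹ •
        (fderiv ℝ (fun q => (Real.sqrt (dt q))⁻¹ •
            (g22 q • fderiv ℝ u q (1, 0) - g12 q • fderiv ℝ u q (0, 1))) p (1, 0) +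
         fderiv ℝ (fun q => (Real.sqrt (dt q))⁻¹ •
            (g11 q • fderiv ℝ u q (0, 1) - g12 q • fderiv ℝ u q (1, 0))) p (0, 1)))

/-- CONV: from a null 2-type conformal immersion to the data `Nt` -/
def ST_CONV : Prop := ∀ (m : ℕ) (f : ℝ × ℝ → EuclideanSpace ℝ (Fin m)) (g11 g12 g22 dt : ℝ × ℝ → ℝ)
    (Lap : (ℝ × ℝ → EuclideanSpace ℝ (Fin m)) → ℝ × ℝ → EuclideanSpace ℝ (Fin m)),
  Imm m f g11 g12 g22 dt Lap → ∀ c : ℝ, c ≠ 0 → (∀ p, Lap (Lap f) p = c • Lap f p) →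
  ∃ (N : Nt Sm m) (x : Fin m → Sm), N.k = -c / 2 ∧
    (∀ i p, (N.ps i).val p = ((1 / c * (Lap f p) i : ℝ) : ℂ)) ∧
    (∀ p, N.F.val p = ((g11 p / 2 : ℝ) : ℂ)) ∧
    (∀ i p, (x i).val p = (((f p) i : ℝ) : ℂ)) ∧ cjv x = x ∧ Dv x = N.A ∧
    (∀ p, (ev p N.g).re = ‖Lap f p‖ ^ 2 / c ^ 2)

/-- PER: a continuous doubly periodic function is bounded above -/
def ST_PER : Prop := ∀ (h : ℝ × ℝ → ℝ) (ω1 ω2 : ℝ × ℝ), Continuous h →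
  ω1.1 * ω2.2 - ω1.2 * ω2.1 ≠ 0 → (∀ p, h (p + ω1) = h p) → (∀ p, h (p + ω2) = h p) →
  ∃ M : ℝ, ∀ p, h p ≤ M

/-- Theorem B. The harmonic part of `f` is `f - (1/c) Lap f`. -/
def ST_THB : Prop := ∀ (f : ℝ × ℝ → EuclideanSpace ℝ (Fin 4)) (g11 g12 g22 dt : ℝ × ℝ → ℝ)
    (Lap : (ℝ × ℝ → EuclideanSpace ℝ (Fin 4)) → ℝ × ℝ → EuclideanSpace ℝ (Fin 4)),
  Imm 4 f g11 g12 g22 dt Lap → ∀ c : ℝ, c ≠ 0 → (∀ p, Lap (Lap f) p = c • Lap f p) →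
  ((∃ (T : ℝ × ℝ →L[ℝ] EuclideanSpace ℝ (Fin 4)) (v : EuclideanSpace ℝ (Fin 4)),
      ∀ p, f p - (1 / c) • Lap f p = T p + v) ∨
    (Sub2 g11 ∧ (Sub2 (fun p => ‖Lap f p‖) ∨
      (∃ c0 : ℝ, 0 < c0 ∧ ∀ p : ℝ × ℝ, c0 / (1 + (p.1 ^ 2 + p.2 ^ 2)) ≤ g11 p) ∨
      (∀ R : ℝ, IsCompact {p | ‖f p‖ ≤ R}))) ∨
    (∃ ω1 ω2 : ℝ × ℝ, ω1.1 * ω2.2 - ω1.2 * ω2.1 ≠ 0 ∧ (∀ p, g11 (p + ω1) = g11 p) ∧
      (∀ p, g11 (p + ω2) = g11 p) ∧ (∀ p, ‖Lap f (p + ω1)‖ = ‖Lap f p‖) ∧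
      (∀ p, ‖Lap f (p + ω2)‖ = ‖Lap f p‖))) →
  ∃ k : ℝ, ∀ p, ‖Lap f p‖ = k

/-! ## Theorem A (any codimension, `K ≥ 0`) -/

/-- CY: maximum principle with cut-off (Cheng-Yau) -/
def ST_CY : Prop := ∀ (u f F : Sm) (α β κ : ℝ), cj u = u → cj f = f → cj F = F →
  (∀ p, 0 < (ev p F).re) → (∀ p, 0 ≤ (ev p u).re) → 0 < α → 0 ≤ β → 0 < κ →
  (∀ p, 0 ≤ (ev p f).re) → (∀ R : ℝ, IsCompact {p | (ev p f).re ≤ R}) →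
  (∀ p, ‖ev p (D f)‖ ^ 2 ≤ κ * (ev p F).re) →
  (∀ p, (ev p (D' (D f))).re ≤ κ * (ev p F).re * (1 + Real.sqrt (ev p u).re)) →
  (∀ p, (ev p F).re * (α * (ev p u).re ^ 2 - β * (ev p u).re) ≤ (ev p (D' (D u))).re) →
  ∀ p, (ev p u).re ≤ β / α

/-- EXH: the exhaustion `log (1 + |z|²)` -/
def ST_EXH : Prop := ∃ f : Sm, cj f = f ∧ (∀ p : ℝ × ℝ, (ev p f).re = Real.log (1 + (p.1 ^ 2 + p.2 ^ 2))) ∧
  (∀ p, 0 ≤ (ev p f).re) ∧ (∀ R : ℝ, IsCompact {p | (ev p f).re ≤ R}) ∧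
  (∀ p : ℝ × ℝ, ‖ev p (D f)‖ ^ 2 ≤ 1 / (1 + (p.1 ^ 2 + p.2 ^ 2))) ∧
  (∀ p : ℝ × ℝ, (ev p (D' (D f))).re ≤ 1 / (1 + (p.1 ^ 2 + p.2 ^ 2)))

/-- good exhaustion for `N` -/
def Exh {m : ℕ} (N : Nt Sm m) : Prop := ∃ (f : Sm) (κ : ℝ), 0 < κ ∧ cj f = f ∧ (∀ p, 0 ≤ (ev p f).re) ∧
  (∀ R : ℝ, IsCompact {p | (ev p f).re ≤ R}) ∧ (∀ p, ‖ev p (D f)‖ ^ 2 ≤ κ * (ev p N.F).re) ∧
  (∀ p, (ev p (D' (D f))).re ≤ κ * (ev p N.F).re * (1 + Real.sqrt (ev p N.g).re))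

/-- EXH2: the two kinds of exhaustion used in the theorems -/
def ST_EXH2 : Prop := ∀ (m : ℕ) (N : Nt Sm m) (x : Fin m → Sm), cjv x = x → Dv x = N.A →
  ((∃ c0 : ℝ, 0 < c0 ∧ ∀ p : ℝ × ℝ, c0 / (1 + (p.1 ^ 2 + p.2 ^ 2)) ≤ (ev p N.F).re) ∨
    (∀ R : ℝ, IsCompact {p | ∑ i, (ev p (x i)).re ^ 2 ≤ R})) → Exh N

/-- A1: `g ≤ 1/k` -/
def ST_A1 : Prop := ∀ (m : ℕ) (N : Nt Sm m), 0 < N.k → Exh N → ∀ p, (ev p N.g).re ≤ 1 / N.k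

/-- `e = |∇ψ|²` (up to a factor) -/
def Nt.e {R : Type} [CommRing R] [DR R] {m : ℕ} (N : Nt R m) : R := dot (Dv N.ps) (Dv' N.ps) * N.G
def Nt.X {R : Type} [CommRing R] [DR R] {m : ℕ} (N : Nt R m) : Fin m → R := Dv (Dv N.ps) - N.ph • Dv N.ps

/-- A2: Bochner formula for `e` -/
def ST_A2 : Prop := ∀ (R : Type) [CommRing R] [DR R] (m : ℕ) (N : Nt R m),
  D N.e = dot N.X (Dv' N.ps) * N.G - N.K * dot (Dv N.ps) N.ps ∧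
  D' (D N.e) = dot N.X (cjv N.X) * N.G - 2 * N.K * dot (Dv N.ps) (Dv' N.ps)
    + N.K * N.K * N.F * N.g - D' N.ph * N.e

/-- A3: gradient bound -/
def ST_A3 : Prop := ∀ (m : ℕ) (N : Nt Sm m), 0 < N.k → Exh N → (∀ p, (ev p (D' N.ph)).re ≤ 0) →
  ∀ p, (ev p N.e).re ≤ 25

/-- A4: each component of the harmonic part has parallel gradient -/
def ST_A4 : Prop := ∀ (m : ℕ) (N : Nt Sm m), (∀ p, (ev p (D' N.ph)).re ≤ 0) →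
  (∃ C : ℝ, ∀ p, (ev p N.e).re ≤ C) → Dv N.Ph = N.ph • N.Ph

/-- A5: parallel gradient implies constant mean curvature -/
def ST_A5 : Prop := ∀ (m : ℕ) (N : Nt Sm m), Dv N.Ph = N.ph • N.Ph → ∀ p p', ev p N.g = ev p' N.g

/-- A6: negative `k` with a good exhaustion: `g` vanishes -/
def ST_A6 : Prop := ∀ (m : ℕ) (N : Nt Sm m), N.k < 0 → Exh N → ∀ p, ev p N.g = 0

/-- Theorem A -/
def ST_THA : Prop := ∀ (m : ℕ) (f : ℝ × ℝ → EuclideanSpace ℝ (Fin m)) (g11 g12 g22 dt : ℝ × ℝ → ℝ)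
    (Lap : (ℝ × ℝ → EuclideanSpace ℝ (Fin m)) → ℝ × ℝ → EuclideanSpace ℝ (Fin m)),
  Imm m f g11 g12 g22 dt Lap →
  (∀ p, fderiv ℝ (fun q => fderiv ℝ (fun r => Real.log (g11 r)) q (1, 0)) p (1, 0)
      + fderiv ℝ (fun q => fderiv ℝ (fun r => Real.log (g11 r)) q (0, 1)) p (0, 1) ≤ 0) →
  ((∃ c0 : ℝ, 0 < c0 ∧ ∀ p : ℝ × ℝ, c0 / (1 + (p.1 ^ 2 + p.2 ^ 2)) ≤ g11 p) ∨
    (∀ R : ℝ, IsCompact {p | ‖f p‖ ≤ R})) →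
  (∃ c : ℝ, c ≠ 0 ∧ ∀ p, Lap (Lap f) p = c • Lap f p) →
  ∃ k : ℝ, ∀ p, ‖Lap f p‖ = k

end N2
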